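import Mathlib

/-!
Graphs without an induced double star: neighbours by degree class, comparability of adjacent
vertices, independent sets in a neighbourhood.
-/

set_option autoImplicit false
set_option linter.unusedSectionVars false

namespace Pool.Agent.R34.DS

open Finset Classical

variable {V : Type} [Fintype V] (G : SimpleGraph V)

/-- the neighbours of `v` -/
noncomputable def nb (v : V) : Finset V := univ.filter (fun u => G.Adj v u)

variable {G} in
lemma mem_nb {v u : V} : u ∈ nb G v ↔ G.Adj v u := by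
  unfold nb
  rw [mem_filter]
  exact ⟨fun h => h.2, fun h => ⟨mem_univ _, h⟩⟩

/-- the degree of `v` -/
noncomputable def dg (v : V) : ℕ := (nb G v).card

/-- `2 ^ (a + 1)` -/
def nn (a : ℕ) : ℕ := 2 ^ (a + 1)

lemma nn_pos (a : ℕ) : 0 < nn a := by unfold nn; positivity

lemma nn_mono {a b : ℕ} (h : a ≤ b) : nn a ≤ nn b := by
  unfold nn
  exact Nat.pow_le_pow_right (by norm_num) (by omega)

/-- the degree class of `v` -/
noncomputable def cls (v : V) : ℕ := Nat.log 2 (dg G v)

lemma dg_lt (v : V) : dg G v < nn (cls G v) := Nat.lt_pow_succ_log_self (by norm_num) _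

/-- the neighbours of `x` of degree class `a` -/
noncomputable def W (a : ℕ) (x : V) : Finset V := (nb G x).filter (fun w => cls G w = a)

variable {G} in
lemma mem_W {a : ℕ} {x w : V} : w ∈ W G a x ↔ G.Adj x w ∧ cls G w = a := by
  unfold W
  rw [mem_filter, mem_nb]

variable {G} in
lemma dg_lt_of_mem_W {a : ℕ} {x w : V} (h : w ∈ W G a x) : dg G w < nn a := by
  have := dg_lt G w
  rwa [(mem_W.1 h).2] at this

/-- `S` is independent -/
def Ind (S : Finset V) : Prop := ∀ a ∈ S, ∀ b ∈ S, ¬ G.Adj a b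

variable {G} in
lemma Ind.mono {S T : Finset V} (h : Ind G T) (hST : S ⊆ T) : Ind G S :=
  fun a ha b hb => h a (hST ha) b (hST hb)

variable {G} in
/-- greedy choice of independent vertices of small degree -/
lemma exists_ind {n : ℕ} (hn : 0 < n) : ∀ (k : ℕ) (S : Finset V), (∀ w ∈ S, dg G w < n) →
    k * n ≤ S.card → ∃ T ⊆ S, T.card = k ∧ Ind G T := by
  intro k
  induction k with
  | zero =>
    intro S _ _
    exact ⟨∅, empty_subset _, rfl, fun a ha => absurd ha (notMem_empty _)⟩
  | succ k ih =>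
    intro S hS hc
    have hne : S.Nonempty := by
      rw [← card_pos]
      have : 0 < (k + 1) * n := Nat.mul_pos (by omega) hn
      omega
    obtain ⟨w, hw⟩ := hne
    set S' := S.filter (fun u => u ≠ w ∧ ¬ G.Adj w u) with hS'
    have h1 : S.card ≤ S'.card + n := by
      have hsub : S ⊆ S' ∪ insert w (nb G w) := by
        intro u hu
        by_cases h2 : u = w
        · exact mem_union_right _ (mem_insert.2 (Or.inl h2))
        · by_cases h3 : G.Adj w u
          · exact mem_union_right _ (mem_insert.2 (Or.inr (mem_nb.2 h3)))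
          · exact mem_union_left _ (mem_filter.2 ⟨hu, h2, h3⟩)
      have h2 := card_le_card hsub
      have h3 := card_union_le S' (insert w (nb G w))
      have h4 := card_insert_le w (nb G w)
      have h5 := hS w hw
      unfold dg at h5
      omega
    have h2 : (k + 1) * n = k * n + n := by ring
    obtain ⟨T, hT, hTc, hTi⟩ := ih S' (fun u hu => hS u (mem_filter.1 hu).1) (by omega)
    have hwT : w ∉ T := fun h => (mem_filter.1 (hT h)).2.1 rfl
    refine ⟨insert w T, ?_, ?_, ?_⟩
    · intro u hu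
      rcases mem_insert.1 hu with rfl | hu
      · exact hw
      · exact (mem_filter.1 (hT hu)).1
    · rw [card_insert_of_notMem hwT, hTc]
    · intro a ha b hb
      rcases mem_insert.1 ha with rfl | ha
      · rcases mem_insert.1 hb with rfl | hb
        · exact G.loopless.irrefl _
        · exact (mem_filter.1 (hT hb)).2.2
      · rcases mem_insert.1 hb with hbw | hb
        · rw [hbw]
          exact fun h => (mem_filter.1 (hT ha)).2.2 h.symm
        · exact hTi a ha b hb

/-- there is no induced double star with `k` leaves at each centre -/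
def DSF (k : ℕ) : Prop := ∀ (x y : V) (A B : Finset V), G.Adj x y → A.card = k → B.card = k →
  (∀ a ∈ A, G.Adj x a ∧ ¬ G.Adj y a ∧ a ≠ y) → (∀ b ∈ B, G.Adj y b ∧ ¬ G.Adj x b ∧ b ≠ x) →
  Ind G A → Ind G B → (∀ a ∈ A, ∀ b ∈ B, ¬ G.Adj a b) → False

/-- the vertices of `W a x` that are not neighbours of `y` -/
noncomputable def Mi (a : ℕ) (x y : V) : Finset V := (W G a x).filter (fun w => ¬ G.Adj y w)

variable {G} in
lemma mem_Mi {a : ℕ} {x y w : V} : w ∈ Mi G a x y ↔ (G.Adj x w ∧ cls G w = a) ∧ ¬ G.Adj y w := by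
  unfold Mi
  rw [mem_filter, mem_W]

/-- `y` dominates `x` -/
def Dm (k : ℕ) (x y : V) : Prop := G.Adj x y ∧ ∀ a, (Mi G a x y).card ≤ 2 * k * nn a

variable {G} {k : ℕ}

lemma comp_aux (h : DSF G k) {x y : V} (hxy : G.Adj x y) {a b : ℕ} (hab : a ≤ b)
    (h1 : 2 * k * nn a < (Mi G a x y).card) (h2 : 2 * k * nn b < (Mi G b y x).card) : False := by
  set S1 := (Mi G a x y).erase y with hS1
  have hc1 : k * nn a ≤ S1.card := by
    have h0 : (Mi G a x y).card - 1 ≤ S1.card := pred_card_le_card_erase
    have h3 : 2 * k * nn a = k * nn a + k * nn a := by ring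
    omega
  obtain ⟨A, hA, hAc, hAi⟩ := exists_ind (nn_pos a) k S1 (fun w hw => by
    have := mem_Mi.1 (mem_of_mem_erase hw)
    have h4 := dg_lt G w
    rwa [this.1.2] at h4) hc1
  set S2 := ((Mi G b y x).erase x) \ (A.biUnion (nb G)) with hS2
  have hc2 : k * nn b ≤ S2.card := by
    have h3 := pred_card_le_card_erase (s := Mi G b y x) (a := x)
    have h4 : ((Mi G b y x).erase x).card - (A.biUnion (nb G)).card ≤ S2.card :=
      le_card_sdiff (A.biUnion (nb G)) ((Mi G b y x).erase x)
    have h5 : (A.biUnion (nb G)).card ≤ k * nn b := by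
      calc (A.biUnion (nb G)).card ≤ A.card * nn a := by
            apply card_biUnion_le_card_mul
            intro w hw
            have h6 := mem_Mi.1 (mem_of_mem_erase (hA hw))
            have h7 := dg_lt G w
            rw [h6.1.2] at h7
            exact h7.le
        _ ≤ k * nn b := by
            rw [hAc]
            exact Nat.mul_le_mul_left _ (nn_mono hab)
    have h6 : 2 * k * nn b = k * nn b + k * nn b := by ring
    omega
  obtain ⟨B, hB, hBc, hBi⟩ := exists_ind (nn_pos b) k S2 (fun w hw => by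
    have := mem_Mi.1 (mem_of_mem_erase (mem_sdiff.1 hw).1)
    have h4 := dg_lt G w
    rwa [this.1.2] at h4) hc2
  refine h x y A B hxy hAc hBc ?_ ?_ hAi hBi ?_
  · intro w hw
    have h3 := hA hw
    have h4 := mem_Mi.1 (mem_of_mem_erase h3)
    exact ⟨h4.1.1, h4.2, ne_of_mem_erase h3⟩
  · intro w hw
    have h3 := (mem_sdiff.1 (hB hw)).1
    have h4 := mem_Mi.1 (mem_of_mem_erase h3)
    exact ⟨h4.1.1, h4.2, ne_of_mem_erase h3⟩
  · intro w hw u hu hwu
    exact (mem_sdiff.1 (hB hu)).2 (mem_biUnion.2 ⟨w, hw, mem_nb.2 hwu⟩)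

/-- adjacent vertices are comparable -/
lemma comp (h : DSF G k) {x y : V} (hxy : G.Adj x y) : Dm G k x y ∨ Dm G k y x := by
  by_contra hcon
  rw [not_or] at hcon
  obtain ⟨h1, h2⟩ := hcon
  have h3 : ∃ a, 2 * k * nn a < (Mi G a x y).card := by
    by_contra h4
    push Not at h4
    exact h1 ⟨hxy, h4⟩
  have h4 : ∃ b, 2 * k * nn b < (Mi G b y x).card := by
    by_contra h5
    push Not at h5
    exact h2 ⟨hxy.symm, h5⟩
  obtain ⟨a, ha⟩ := h3
  obtain ⟨b, hb⟩ := h4
  rcases le_total a b with hab | hab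
  · exact comp_aux h hxy hab ha hb
  · exact comp_aux h hxy.symm hab hb ha

/-- an independent set in a neighbourhood is seen almost completely by the typical neighbours of
its members -/
lemma ind_case (hk : 1 ≤ k) (h : DSF G k) {v x : V} {I : Finset V} (hI : I ⊆ nb G v)
    (hind : Ind G I) (hx : x ∈ I) (b : ℕ) :
    ((W G b x).filter (fun w => ¬ G.Adj v w ∧
      k ≤ ((I.erase x).filter (fun y => ¬ G.Adj w y)).card)).card ≤ I.card ^ k * (k * nn b) := by
  set Q := (W G b x).filter (fun w => ¬ G.Adj v w ∧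
      k ≤ ((I.erase x).filter (fun y => ¬ G.Adj w y)).card) with hQ
  set QJ : Finset V → Finset V := fun J =>
    (W G b x).filter (fun w => ¬ G.Adj v w ∧ ∀ y ∈ J, ¬ G.Adj w y) with hQJ
  have hsub : Q ⊆ (powersetCard k (I.erase x)).biUnion QJ := by
    intro w hw
    obtain ⟨h1, h2, h3⟩ := mem_filter.1 hw
    obtain ⟨J, hJ, hJc⟩ := exists_subset_card_eq h3
    refine mem_biUnion.2 ⟨J, mem_powersetCard.2 ⟨hJ.trans (filter_subset _ _), hJc⟩, ?_⟩
    exact mem_filter.2 ⟨h1, h2, fun y hy => (mem_filter.1 (hJ hy)).2⟩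
  have hcard : ∀ J ∈ powersetCard k (I.erase x), (QJ J).card ≤ k * nn b := by
    intro J hJ
    obtain ⟨hJ1, hJ2⟩ := mem_powersetCard.1 hJ
    by_contra hcon
    push Not at hcon
    obtain ⟨B, hB, hBc, hBi⟩ := exists_ind (nn_pos b) k (QJ J)
      (fun w hw => dg_lt_of_mem_W (mem_filter.1 hw).1) hcon.le
    have hJI : J ⊆ I := hJ1.trans (erase_subset _ _)
    refine h v x J B (mem_nb.1 (hI hx)) hJ2 hBc ?_ ?_ (hind.mono hJI) hBi ?_
    · intro y hy
      exact ⟨mem_nb.1 (hI (hJI hy)), hind x hx y (hJI hy), ne_of_mem_erase (hJ1 hy)⟩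
    · intro w hw
      obtain ⟨h1, h2, h3⟩ := mem_filter.1 (hB hw)
      refine ⟨(mem_W.1 h1).1, h2, ?_⟩
      rintro rfl
      have hne : J.Nonempty := by
        rw [← card_pos]
        omega
      obtain ⟨y, hy⟩ := hne
      exact h3 y hy (mem_nb.1 (hI (hJI hy)))
    · intro y hy w hw hyw
      exact (mem_filter.1 (hB hw)).2.2 y hy hyw.symm
  calc Q.card ≤ ((powersetCard k (I.erase x)).biUnion QJ).card := card_le_card hsub
    _ ≤ (powersetCard k (I.erase x)).card * (k * nn b) := card_biUnion_le_card_mul _ _ _ hcard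
    _ ≤ I.card ^ k * (k * nn b) := by
        apply Nat.mul_le_mul_right
        rw [card_powersetCard]
        calc (I.erase x).card.choose k ≤ (I.erase x).card ^ k := Nat.choose_le_pow _ _
          _ ≤ I.card ^ k := Nat.pow_le_pow_left (card_le_card (erase_subset _ _)) _

end Pool.Agent.R34.DS
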