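import Mathlib
import Pool.Agent.R34.DS.Basic

/-!
The vertices reachable by domination, the order of the vertices, and the colouring rule.
-/

set_option autoImplicit false
set_option linter.unusedSectionVars false

namespace Pool.Agent.R34.DS

open Finset Classical

variable {V : Type} [Fintype V] (G : SimpleGraph V) (k : ℕ)

/-- `y` is reachable from `x` by domination -/
def Re (x y : V) : Prop := Relation.ReflTransGen (Dm G k) x y

/-- the set of vertices reachable from `x` -/
noncomputable def RS (x : V) : Finset V := univ.filter (fun y => Re G k x y)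

variable {G k}

lemma mem_RS {x y : V} : y ∈ RS G k x ↔ Re G k x y := by
  unfold RS
  rw [mem_filter]
  exact ⟨fun h => h.2, fun h => ⟨mem_univ _, h⟩⟩

lemma chain_card (S : ℕ → Finset V) (h0 : (S 0).Nonempty) (hm : ∀ j, S j ⊆ S (j + 1)) :
    ∀ n, (∀ j < n, S j ≠ S (j + 1)) → n + 1 ≤ (S n).card := by
  intro n
  induction n with
  | zero =>
    intro _
    exact card_pos.2 h0
  | succ n ih =>
    intro h
    have h1 := ih (fun j hj => h j (by omega))
    have h2 : S n ⊂ S (n + 1) := Finset.ssubset_iff_subset_ne.2 ⟨hm n, h n (by omega)⟩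
    have h3 := card_lt_card h2
    omega

lemma Mi_step {a : ℕ} {x y z : V} : Mi G a x z ⊆ Mi G a x y ∪ Mi G a y z := by
  intro w hw
  obtain ⟨⟨h1, h2⟩, h3⟩ := mem_Mi.1 hw
  by_cases h4 : G.Adj y w
  · exact mem_union_right _ (mem_Mi.2 ⟨⟨h4, h2⟩, h3⟩)
  · exact mem_union_left _ (mem_Mi.2 ⟨⟨h1, h2⟩, h4⟩)

/-- a vertex with many neighbours of class `a`: all but few of these neighbours are adjacent to all
the vertices reachable from it -/
lemma reach_missed {a : ℕ} {x : V}
    (hs : nn a * (nn a * (2 * k * nn a)) < (W G a x).card) :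
    ((W G a x).filter (fun w => ∃ y, Re G k x y ∧ ¬ G.Adj w y)).card ≤
      nn a * (nn a * (2 * k * nn a)) := by
  set n := nn a with hn
  set t := 2 * k * n with ht
  set S : ℕ → Finset V := fun j => univ.filter (fun y => (Mi G a x y).card ≤ j * t) with hS
  have hmemS : ∀ j y, y ∈ S j ↔ (Mi G a x y).card ≤ j * t := by
    intro j y
    rw [hS]
    simp only [mem_filter, mem_univ, true_and]
  have hx0 : x ∈ S 0 := by
    rw [hmemS, Nat.zero_mul, Nat.le_zero, card_eq_zero]
    apply eq_empty_of_forall_notMem
    intro w hw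
    exact (mem_Mi.1 hw).2 (mem_Mi.1 hw).1.1
  have hmono : ∀ j, S j ⊆ S (j + 1) := by
    intro j y hy
    rw [hmemS] at hy ⊢
    exact hy.trans (Nat.mul_le_mul_right _ (by omega))
  have hstep : ∀ j y z, y ∈ S j → Dm G k y z → z ∈ S (j + 1) := by
    intro j y z hy hyz
    rw [hmemS] at hy ⊢
    have h1 := card_le_card (Mi_step (G := G) (a := a) (x := x) (y := y) (z := z))
    have h2 := card_union_le (Mi G a x y) (Mi G a y z)
    have h3 : (Mi G a y z).card ≤ t := hyz.2 a
    have h4 : (j + 1) * t = j * t + t := by ring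
    rw [h4]
    omega
  have hSn : (S n).card < n := by
    by_contra hcon
    push Not at hcon
    obtain ⟨Y, hY, hYc⟩ := exists_subset_card_eq hcon
    have h1 : (Y.biUnion (fun y => Mi G a x y)).card ≤ n * (n * t) := by
      have := card_biUnion_le_card_mul Y (fun y => Mi G a x y) (n * t)
        (fun y hy => (hmemS n y).1 (hY hy))
      rwa [hYc] at this
    have h2 : ∃ w ∈ W G a x, w ∉ Y.biUnion (fun y => Mi G a x y) := by
      by_contra h3
      push Not at h3
      have := card_le_card (show W G a x ⊆ Y.biUnion (fun y => Mi G a x y) from h3)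
      omega
    obtain ⟨w, hw, hwY⟩ := h2
    have h3 : Y ⊆ nb G w := by
      intro y hy
      rw [mem_nb]
      by_contra h4
      exact hwY (mem_biUnion.2 ⟨y, hy, mem_Mi.2 ⟨mem_W.1 hw, fun h => h4 h.symm⟩⟩)
    have h4 := card_le_card h3
    have h5 := dg_lt_of_mem_W hw
    unfold dg at h5
    omega
  have hstab : ∃ j < n, S j = S (j + 1) := by
    by_contra hcon
    push Not at hcon
    have := chain_card S ⟨x, hx0⟩ hmono n hcon
    omega
  obtain ⟨j, hj, hjS⟩ := hstab
  have hreach : ∀ y, Re G k x y → y ∈ S j := by
    intro y hy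
    induction hy with
    | refl => 
      have : ∀ i, x ∈ S i := by
        intro i
        induction i with
        | zero => exact hx0
        | succ i ih => exact hmono i ih
      exact this j
    | tail _ hyz ih =>
      rw [hjS]
      exact hstep j _ _ ih hyz
  have hmono' : ∀ i l, i ≤ l → S i ⊆ S l := by
    intro i l hil
    induction hil with
    | refl => exact Subset.refl _
    | step _ ih => exact ih.trans (hmono _)
  have hsub : (W G a x).filter (fun w => ∃ y, Re G k x y ∧ ¬ G.Adj w y) ⊆
      (S n).biUnion (fun y => Mi G a x y) := by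
    intro w hw
    obtain ⟨h1, y, h2, h3⟩ := mem_filter.1 hw
    refine mem_biUnion.2 ⟨y, hmono' j n hj.le (hreach y h2), ?_⟩
    exact mem_Mi.2 ⟨mem_W.1 h1, fun h => h3 h.symm⟩
  calc _ ≤ ((S n).biUnion (fun y => Mi G a x y)).card := card_le_card hsub
    _ ≤ (S n).card * (n * t) := card_biUnion_le_card_mul _ _ _ (fun y hy => (hmemS n y).1 hy)
    _ ≤ n * (n * t) := Nat.mul_le_mul_right _ hSn.le

variable (G k) in
/-- the position of `x` -/
noncomputable def lam (x : V) : ℕ :=
  (RS G k x).card * (Fintype.card V + 1) + (Fintype.equivFin V x).val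

lemma lam_ne {x y : V} (hxy : x ≠ y) : lam G k x ≠ lam G k y := by
  intro h
  unfold lam at h
  have h1 := (Fintype.equivFin V x).isLt
  have h2 := (Fintype.equivFin V y).isLt
  have h3 : (Fintype.equivFin V x).val = (Fintype.equivFin V y).val := by
    have e1 : ((RS G k x).card * (Fintype.card V + 1) + (Fintype.equivFin V x).val) %
        (Fintype.card V + 1) = (Fintype.equivFin V x).val := by
      rw [Nat.mul_comm, Nat.mul_add_mod]
      exact Nat.mod_eq_of_lt (by omega)
    have e2 : ((RS G k y).card * (Fintype.card V + 1) + (Fintype.equivFin V y).val) %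
        (Fintype.card V + 1) = (Fintype.equivFin V y).val := by
      rw [Nat.mul_comm, Nat.mul_add_mod]
      exact Nat.mod_eq_of_lt (by omega)
    rw [← e1, ← e2, h]
  exact hxy ((Fintype.equivFin V).injective (Fin.ext h3))

lemma RS_mono {x y : V} (h : Re G k x y) : RS G k y ⊆ RS G k x := by
  intro z hz
  rw [mem_RS] at hz ⊢
  exact Relation.ReflTransGen.trans h hz

/-- an adjacent vertex that comes earlier is reachable -/
lemma re_of_adj (h : DSF G k) {x y : V} (hxy : G.Adj x y) (hl : lam G k y < lam G k x) :
    Re G k x y := by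
  rcases comp h hxy with h1 | h1
  · exact Relation.ReflTransGen.single h1
  · have h2 : Re G k y x := Relation.ReflTransGen.single h1
    have h3 := RS_mono h2
    have h4 : (RS G k y).card ≤ (RS G k x).card := by
      by_contra hcon
      push Not at hcon
      unfold lam at hl
      have h5 := (Fintype.equivFin V x).isLt
      have h6 : ((RS G k x).card + 1) * (Fintype.card V + 1) ≤
          (RS G k y).card * (Fintype.card V + 1) := Nat.mul_le_mul_right _ hcon
      have h7 : ((RS G k x).card + 1) * (Fintype.card V + 1) =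
        (RS G k x).card * (Fintype.card V + 1) + (Fintype.card V + 1) := by ring
      omega
    have h5 := eq_of_subset_of_card_le h3 h4
    have h6 : y ∈ RS G k y := mem_RS.2 Relation.ReflTransGen.refl
    rw [← h5] at h6
    exact mem_RS.1 h6

variable {m : ℕ}

variable (G k) in
/-- the colours that do not occur on the vertices reachable from `x` that come before `x` -/
noncomputable def Miss (col : V → Fin m) (x : V) : Finset (Fin m) :=
  univ.filter (fun c => ∀ y, Re G k x y → lam G k y < lam G k x → col y ≠ c)

lemma mem_Miss {col : V → Fin m} {x : V} {c : Fin m} :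
    c ∈ Miss G k col x ↔ ∀ y, Re G k x y → lam G k y < lam G k x → col y ≠ c := by
  unfold Miss
  rw [mem_filter]
  exact ⟨fun h => h.2, fun h => ⟨mem_univ _, h⟩⟩

variable (G k) in
/-- the colouring rule -/
structure Rule (Act : V → Prop) (U col : V → Fin m) : Prop where
  h1 : ∀ x, ¬ Act x → col x = U x
  h2 : ∀ x, U x ∈ Miss G k col x → col x = U x
  h3 : ∀ x, Miss G k col x = ∅ → col x = U x
  h4 : ∀ x, Act x → (Miss G k col x).Nonempty → col x ∈ Miss G k col x

variable (G k) in
/-- a colouring following the rule exists -/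
lemma exists_col (Act : V → Prop) (U : V → Fin m) : ∃ col : V → Fin m, Rule G k Act U col := by
  set F : (x : V) → ((y : V) → lam G k y < lam G k x → Fin m) → Fin m := fun x r =>
    if h : Act x ∧ (¬ ∀ y (hy : lam G k y < lam G k x), Re G k x y → r y hy ≠ U x) ∧
      ∃ c : Fin m, ∀ y (hy : lam G k y < lam G k x), Re G k x y → r y hy ≠ c
    then h.2.2.choose else U x with hF
  set col : V → Fin m := WellFounded.fix (measure (lam G k)).wf F with hcol
  have heq : ∀ x, col x = F x (fun y _ => col y) := fun x => WellFounded.fix_eq _ _ x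
  have hM : ∀ x c, c ∈ Miss G k col x ↔
      ∀ y (_ : lam G k y < lam G k x), Re G k x y → col y ≠ c := by
    intro x c
    rw [mem_Miss]
    exact ⟨fun h y h1 h2 => h y h2 h1, fun h y h1 h2 => h y h2 h1⟩
  refine ⟨col, ⟨?_, ?_, ?_, ?_⟩⟩
  · intro x hx
    rw [heq, hF]
    simp only
    rw [dif_neg (fun h => hx h.1)]
  · intro x hx
    rw [heq, hF]
    simp only
    rw [dif_neg (fun h => h.2.1 ((hM x _).1 hx))]
  · intro x hx
    rw [heq, hF]
    simp only
    rw [dif_neg]
    rintro ⟨_, _, c, hc⟩
    have := (hM x c).2 hc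
    rw [hx] at this
    exact absurd this (notMem_empty _)
  · intro x hx hne
    obtain ⟨c, hc⟩ := hne
    by_cases hU : U x ∈ Miss G k col x
    · have : col x = U x := by
        rw [heq, hF]
        simp only
        rw [dif_neg (fun h => h.2.1 ((hM x _).1 hU))]
      rw [this]
      exact hU
    · have hc' := (hM x c).1 hc
      have hcond : Act x ∧ (¬ ∀ y (hy : lam G k y < lam G k x), Re G k x y → col y ≠ U x) ∧
          ∃ c : Fin m, ∀ y (hy : lam G k y < lam G k x), Re G k x y → col y ≠ c :=
        ⟨hx, fun h => hU ((hM x _).2 h), c, hc'⟩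
      have : col x = hcond.2.2.choose := by
        rw [heq, hF]
        simp only
        rw [dif_pos hcond]
      rw [this]
      exact (hM x _).2 hcond.2.2.choose_spec

/-- the vertices where the rule acts contain large independent sets -/
lemma exists_ind_of_rule (h : DSF G k) {Act : V → Prop} {U col : V → Fin m}
    (hR : Rule G k Act U col) {S : Finset V}
    (hS : ∀ x ∈ S, Act x ∧ (Miss G k col x).Nonempty) :
    ∃ I ⊆ S, Ind G I ∧ S.card ≤ m * I.card := by
  rcases Nat.eq_zero_or_pos m with hm | hm
  · subst hm
    refine ⟨∅, empty_subset _, fun a ha => absurd ha (notMem_empty _), ?_⟩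
    have : S = ∅ := by
      apply eq_empty_of_forall_notMem
      intro x hx
      obtain ⟨c, _⟩ := (hS x hx).2
      exact c.elim0
    rw [this]
    simp
  have hmap : ∀ x ∈ S, (Miss G k col x).card ∈ Icc 1 m := by
    intro x hx
    rw [mem_Icc]
    refine ⟨card_pos.2 (hS x hx).2, ?_⟩
    calc (Miss G k col x).card ≤ (univ : Finset (Fin m)).card := card_le_card (subset_univ _)
      _ = m := by rw [card_univ, Fintype.card_fin]
  have hne : (Icc 1 m).Nonempty := ⟨1, mem_Icc.2 ⟨le_refl _, hm⟩⟩
  obtain ⟨c, hc, hmax⟩ := exists_max_image (Icc 1 m)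
    (fun c => (S.filter (fun x => (Miss G k col x).card = c)).card) hne
  refine ⟨S.filter (fun x => (Miss G k col x).card = c), filter_subset _ _, ?_, ?_⟩
  · -- independent
    have key : ∀ x ∈ S, ∀ y ∈ S, G.Adj x y → lam G k y < lam G k x →
        (Miss G k col x).card < (Miss G k col y).card := by
      intro x hx y hy hxy hl
      have hre := re_of_adj h hxy hl
      apply card_lt_card
      rw [Finset.ssubset_iff_of_subset]
      · refine ⟨col y, hR.h4 y (hS y hy).1 (hS y hy).2, ?_⟩
        intro hcy
        exact mem_Miss.1 hcy y hre hl rfl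
      · intro d hd
        rw [mem_Miss] at hd ⊢
        intro z hz hlz
        exact hd z (Relation.ReflTransGen.trans hre hz) (hlz.trans hl)
    intro x hx y hy hxy
    obtain ⟨hx1, hx2⟩ := mem_filter.1 hx
    obtain ⟨hy1, hy2⟩ := mem_filter.1 hy
    rcases lt_or_gt_of_ne (lam_ne (G := G) (k := k) hxy.ne) with hl | hl
    · have := key y hy1 x hx1 hxy.symm hl
      omega
    · have := key x hx1 y hy1 hxy hl
      omega
  · calc S.card = ∑ c ∈ Icc 1 m, (S.filter (fun x => (Miss G k col x).card = c)).card :=
          card_eq_sum_card_fiberwise hmap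
      _ ≤ ∑ _c ∈ Icc 1 m, (S.filter (fun x => (Miss G k col x).card = c)).card :=
          sum_le_sum (fun c' hc' => hmax c' hc')
      _ = m * (S.filter (fun x => (Miss G k col x).card = c)).card := by
          rw [sum_const, Nat.card_Icc, smul_eq_mul]
          simp

end Pool.Agent.R34.DS
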