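import Mathlib
import Pool.Agent.R34.DS.Reach

/-!
The structure of the neighbourhoods: typical neighbours, excused vertices, counting.
-/

set_option autoImplicit false
set_option linter.unusedSectionVars false

namespace Pool.Agent.R34.DS

open Finset Classical

variable {V : Type} [Fintype V] (G : SimpleGraph V) (k m : ℕ)

/-- the threshold for hubs -/
def hb (a : ℕ) : ℕ := nn a ^ (3 * k + 10)

/-- the size of the independent sets that excuse vertices -/
def qq (a : ℕ) : ℕ := nn a / (512 * m ^ 2)

/-- the shift of the classes -/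
def cc : ℕ := 1024 * m ^ 2

/-- `w` is typical for `x` -/
def Typ (w x : V) : Prop := ∀ y, Re G k x y → G.Adj w y

/-- the hubs in the neighbourhood of `v` for which `v` is typical -/
noncomputable def T (v : V) : Finset V :=
  (nb G v).filter (fun x => hb k (cls G v) < (W G (cls G v) x).card ∧ Typ G k v x)

/-- the other neighbours -/
noncomputable def E (v : V) : Finset V :=
  (nb G v).filter (fun x => ¬ (hb k (cls G v) < (W G (cls G v) x).card ∧ Typ G k v x))

/-- hubs of low class -/
def Low (v x : V) : Prop := ∃ b, b + cc m < cls G v ∧ hb k b < (W G b x).card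

/-- excused vertices -/
def Exc (x : V) : Prop := ∃ (v : V) (I : Finset V),
  I ⊆ (E G k v).filter (fun y => ¬ Low G k m v y) ∧ Ind G I ∧ I.card = qq m (cls G v) ∧ x ∈ I

/-- the vertices for which the rule acts -/
def Act (x : V) : Prop := (∃ a, hb k a < (W G a x).card) ∧ ¬ Exc G k m x

/-- `x` is adjacent to at least half of the vertices in `W a z` -/
def Do (a : ℕ) (z x : V) : Prop :=
  (W G a z).card ≤ 2 * ((W G a z).filter (fun w => G.Adj x w)).card

/-- the numerical conditions -/
structure Par (i0 : ℕ) : Prop where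
  p1 : ∀ a, i0 ≤ a → nn a * (nn a * (2 * k * nn a)) ≤ hb k a
  p2 : ∀ a, i0 ≤ a → 2 * ((nn a + k) ^ k * (k * nn a)) ≤ hb k a
  p3 : ∀ a, i0 ≤ a → 2 * (nn a * (512 * m)) ≤ hb k a
  p4 : ∀ a, i0 ≤ a → nn a * (nn a + nn a ^ k * (k * nn a)) ≤ hb k a
  p5 : ∀ a, i0 ≤ a → 1024 * m ^ 2 * k ≤ nn a

variable {G k m} {i0 : ℕ}

lemma mem_T {v x : V} : x ∈ T G k v ↔
    G.Adj v x ∧ hb k (cls G v) < (W G (cls G v) x).card ∧ Typ G k v x := by
  unfold T
  rw [mem_filter, mem_nb]

lemma mem_E {v x : V} : x ∈ E G k v ↔
    G.Adj v x ∧ ¬ (hb k (cls G v) < (W G (cls G v) x).card ∧ Typ G k v x) := by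
  unfold E
  rw [mem_filter, mem_nb]

lemma card_T_add_E (v : V) : (T G k v).card + (E G k v).card = dg G v := by
  unfold T E dg
  exact card_filter_add_card_filter_not _

/-- few neighbours are not typical -/
lemma card_not_typ (hP : Par k m i0) {a : ℕ} {x : V} (ha : i0 ≤ a)
    (hx : hb k a < (W G a x).card) :
    ((W G a x).filter (fun w => ¬ Typ G k w x)).card ≤ hb k a := by
  have h1 := hP.p1 a ha
  have h2 := reach_missed (G := G) (k := k) (a := a) (x := x) (lt_of_le_of_lt h1 hx)
  refine le_trans (card_le_card ?_) (h2.trans h1)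
  intro w hw
  obtain ⟨h3, h4⟩ := mem_filter.1 hw
  refine mem_filter.2 ⟨h3, ?_⟩
  unfold Typ at h4
  push Not at h4
  obtain ⟨y, hy1, hy2⟩ := h4
  exact ⟨y, hy1, hy2⟩

/-- every vertex is in few sets `E v` -/
lemma card_E (hP : Par k m i0) {j : ℕ} (hj : i0 ≤ j) (z : V) :
    ((univ : Finset V).filter (fun v => cls G v = j ∧ z ∈ E G k v)).card ≤ hb k j := by
  have hsub : (univ : Finset V).filter (fun v => cls G v = j ∧ z ∈ E G k v) ⊆ W G j z := by
    intro v hv
    obtain ⟨-, h1, h2⟩ := mem_filter.1 hv
    exact mem_W.2 ⟨(mem_E.1 h2).1.symm, h1⟩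
  by_cases hz : hb k j < (W G j z).card
  · refine le_trans (card_le_card ?_) (card_not_typ hP hj hz)
    intro v hv
    refine mem_filter.2 ⟨hsub hv, ?_⟩
    obtain ⟨-, h1, h2⟩ := mem_filter.1 hv
    have h3 := (mem_E.1 h2).2
    rw [h1] at h3
    exact fun h => h3 ⟨hz, h⟩
  · exact (card_le_card hsub).trans (not_lt.1 hz)

lemma cc_mul {b i : ℕ} (h : b + cc m < i) : 1024 * m ^ 2 * nn b ≤ nn i := by
  unfold nn
  calc 1024 * m ^ 2 * 2 ^ (b + 1) ≤ 2 ^ (1024 * m ^ 2) * 2 ^ (b + 1) :=
        Nat.mul_le_mul_right _ Nat.lt_two_pow_self.le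
    _ = 2 ^ (1024 * m ^ 2 + (b + 1)) := (pow_add _ _ _).symm
    _ ≤ 2 ^ (i + 1) := Nat.pow_le_pow_right (by norm_num) (by unfold cc at h; omega)

/-- double counting of non-adjacent pairs -/
lemma sum_Mi (a : ℕ) (z : V) (B : Finset V) :
    ∑ x ∈ B, (Mi G a z x).card = ∑ w ∈ W G a z, (B.filter (fun x => ¬ G.Adj w x)).card := by
  have h1 : ∀ x ∈ B, (Mi G a z x).card = ∑ w ∈ W G a z, (if ¬ G.Adj w x then 1 else 0) := by
    intro x _
    unfold Mi
    rw [card_filter]
    apply sum_congr rfl
    intro w _
    by_cases h : G.Adj x w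
    · rw [if_neg (not_not.2 h), if_neg (not_not.2 h.symm)]
    · rw [if_pos h, if_pos (fun h' => h h'.symm)]
  rw [sum_congr rfl h1, sum_comm]
  apply sum_congr rfl
  intro w _
  rw [card_filter]

/-- double counting of adjacent pairs -/
lemma card_Do {a : ℕ} {z : V} (hz : 0 < (W G a z).card) :
    ((univ : Finset V).filter (fun x => Do G a z x)).card ≤ 2 * nn a := by
  set S := (univ : Finset V).filter (fun x => Do G a z x) with hS
  have h1 : S.card * (W G a z).card ≤ ∑ x ∈ S, 2 * ((W G a z).filter (fun w => G.Adj x w)).card := by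
    rw [← smul_eq_mul, ← sum_const]
    exact sum_le_sum (fun x hx => (mem_filter.1 hx).2)
  have h2 : ∑ x ∈ S, ((W G a z).filter (fun w => G.Adj x w)).card =
      ∑ w ∈ W G a z, (S.filter (fun x => G.Adj x w)).card := by
    have e1 : ∀ x ∈ S, ((W G a z).filter (fun w => G.Adj x w)).card =
        ∑ w ∈ W G a z, (if G.Adj x w then 1 else 0) := fun x _ => by rw [card_filter]
    rw [sum_congr rfl e1, sum_comm]
    apply sum_congr rfl
    intro w _
    rw [card_filter]
  have h3 : ∑ w ∈ W G a z, (S.filter (fun x => G.Adj x w)).card ≤ (W G a z).card * nn a := by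
    rw [← smul_eq_mul, ← sum_const]
    apply sum_le_sum
    intro w hw
    have e1 : S.filter (fun x => G.Adj x w) ⊆ nb G w := by
      intro x hx
      exact mem_nb.2 (mem_filter.1 hx).2.symm
    have e2 := card_le_card e1
    have e3 := dg_lt_of_mem_W hw
    unfold dg at e3
    omega
  rw [← mul_sum, h2] at h1
  have h4 : S.card * (W G a z).card ≤ (2 * nn a) * (W G a z).card := by
    calc S.card * (W G a z).card ≤ 2 * ∑ w ∈ W G a z, (S.filter (fun x => G.Adj x w)).card := h1
      _ ≤ 2 * ((W G a z).card * nn a) := Nat.mul_le_mul_left _ h3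
      _ = (2 * nn a) * (W G a z).card := by ring
  exact Nat.le_of_mul_le_mul_right h4 hz

/-- the classes of neighbours of hubs are large -/
lemma le_of_hub (hcls : ∀ v : V, i0 ≤ cls G v) {a : ℕ} {x : V} (h : 0 < (W G a x).card) :
    i0 ≤ a := by
  obtain ⟨w, hw⟩ := card_pos.1 h
  have := hcls w
  rwa [(mem_W.1 hw).2] at this

/-- few members of an independent set of typical hubs are dominated by few -/
lemma card_not_Do (hk : 1 ≤ k) (h : DSF G k) (hP : Par k m i0) {v : V} {I : Finset V}
    (hi : i0 ≤ cls G v) (hI : I ⊆ nb G v) (hind : Ind G I) {z : V} (hz : z ∈ I)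
    (hzW : hb k (cls G v) < (W G (cls G v) z).card) :
    (I.filter (fun x => ¬ Do G (cls G v) z x)).card ≤ 2 * k := by
  set a := cls G v with ha
  set B := I.filter (fun x => ¬ Do G a z x) with hB
  have hIc : I.card ≤ nn a := (card_le_card hI).trans (dg_lt G v).le
  have hBI : B ⊆ I.erase z := by
    intro x hx
    obtain ⟨h1, h2⟩ := mem_filter.1 hx
    refine mem_erase.2 ⟨?_, h1⟩
    rintro rfl
    apply h2
    unfold Do
    have : (W G a x).filter (fun w => G.Adj x w) = W G a x := by
      apply filter_true_of_mem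
      intro w hw
      exact (mem_W.1 hw).1
    rw [this]
    omega
  set X := (W G a z).filter (fun w => G.Adj v w ∨
      k ≤ ((I.erase z).filter (fun y => ¬ G.Adj w y)).card) with hX
  have hXc : X.card ≤ nn a + nn a ^ k * (k * nn a) := by
    have h1 : X ⊆ nb G v ∪ (W G a z).filter (fun w => ¬ G.Adj v w ∧
        k ≤ ((I.erase z).filter (fun y => ¬ G.Adj w y)).card) := by
      intro w hw
      obtain ⟨h2, h3⟩ := mem_filter.1 hw
      by_cases h4 : G.Adj v w
      · exact mem_union_left _ (mem_nb.2 h4)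
      · exact mem_union_right _ (mem_filter.2 ⟨h2, h4, h3.resolve_left h4⟩)
    have h2 := card_le_card h1
    have h3 := card_union_le (nb G v) ((W G a z).filter (fun w => ¬ G.Adj v w ∧
        k ≤ ((I.erase z).filter (fun y => ¬ G.Adj w y)).card))
    have h4 := ind_case hk h hI hind hz a
    have h5 : I.card ^ k * (k * nn a) ≤ nn a ^ k * (k * nn a) :=
      Nat.mul_le_mul_right _ (Nat.pow_le_pow_left hIc _)
    have h6 := dg_lt G v
    rw [← ha] at h6
    unfold dg at h6
    omega
  have hBX : B.card * X.card < (W G a z).card := by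
    refine lt_of_le_of_lt ?_ hzW
    refine le_trans ?_ (hP.p4 a hi)
    refine Nat.mul_le_mul ?_ hXc
    exact ((card_le_card hBI).trans (card_le_card (erase_subset _ _))).trans hIc
  have h1 : B.card * (W G a z).card ≤ 2 * ∑ x ∈ B, (Mi G a z x).card := by
    rw [mul_sum, ← smul_eq_mul, ← sum_const]
    apply sum_le_sum
    intro x hx
    have h2 := (mem_filter.1 hx).2
    unfold Do at h2
    have h3 : ((W G a z).filter (fun w => G.Adj x w)).card + (Mi G a z x).card =
        (W G a z).card := by
      unfold Mi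
      exact card_filter_add_card_filter_not _
    omega
  have h2 : ∑ w ∈ W G a z, (B.filter (fun x => ¬ G.Adj w x)).card ≤
      (W G a z).card * (k - 1) + B.card * X.card := by
    calc ∑ w ∈ W G a z, (B.filter (fun x => ¬ G.Adj w x)).card
        ≤ ∑ w ∈ W G a z, ((k - 1) + (if w ∈ X then B.card else 0)) := by
          apply sum_le_sum
          intro w hw
          by_cases hwX : w ∈ X
          · rw [if_pos hwX]
            exact (card_le_card (filter_subset _ _)).trans (Nat.le_add_left _ _)
          · rw [if_neg hwX]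
            have h3 : ¬ (G.Adj v w ∨ k ≤ ((I.erase z).filter (fun y => ¬ G.Adj w y)).card) :=
              fun h => hwX (mem_filter.2 ⟨hw, h⟩)
            rw [not_or] at h3
            have h4 : (B.filter (fun x => ¬ G.Adj w x)).card ≤
                ((I.erase z).filter (fun y => ¬ G.Adj w y)).card :=
              card_le_card (filter_subset_filter _ hBI)
            omega
      _ = (W G a z).card * (k - 1) + B.card * X.card := by
          rw [sum_add_distrib, sum_const, smul_eq_mul, ← sum_filter, sum_const, smul_eq_mul]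
          have : (W G a z).filter (fun w => w ∈ X) = X := by
            ext w
            rw [mem_filter]
            exact ⟨fun h => h.2, fun h => ⟨(mem_filter.1 h).1, h⟩⟩
          rw [this, Nat.mul_comm X.card]
  rw [sum_Mi] at h1
  have h3 : B.card * (W G a z).card < 2 * k * (W G a z).card := by
    calc B.card * (W G a z).card
        ≤ 2 * ((W G a z).card * (k - 1) + B.card * X.card) := h1.trans (Nat.mul_le_mul_left _ h2)
      _ < 2 * ((W G a z).card * (k - 1) + (W G a z).card) := by omega
      _ = 2 * k * (W G a z).card := by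
          obtain ⟨k', rfl⟩ : ∃ k', k = k' + 1 := ⟨k - 1, by omega⟩
          simp only [Nat.add_sub_cancel]
          ring
  exact (Nat.lt_of_mul_lt_mul_right h3).le

/-- at least half of the members are good -/
lemma half_good {I : Finset V} {R : V → V → Prop}
    (h : ∀ z ∈ I, (I.filter (fun x => ¬ R z x)).card ≤ 2 * k) :
    I.card ≤ 2 * (I.filter (fun x => (I.filter (fun z => ¬ R z x)).card ≤ 4 * k)).card := by
  set Bd := I.filter (fun x => ¬ (I.filter (fun z => ¬ R z x)).card ≤ 4 * k) with hBd
  have h1 : (I.filter (fun x => (I.filter (fun z => ¬ R z x)).card ≤ 4 * k)).card + Bd.card =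
      I.card := card_filter_add_card_filter_not _
  have h2 : Bd.card * (4 * k + 1) ≤ ∑ x ∈ I, (I.filter (fun z => ¬ R z x)).card := by
    calc Bd.card * (4 * k + 1) = ∑ _x ∈ Bd, (4 * k + 1) := by rw [sum_const, smul_eq_mul]
      _ ≤ ∑ x ∈ Bd, (I.filter (fun z => ¬ R z x)).card := by
          apply sum_le_sum
          intro x hx
          have := (mem_filter.1 hx).2
          omega
      _ ≤ ∑ x ∈ I, (I.filter (fun z => ¬ R z x)).card :=
          sum_le_sum_of_subset (filter_subset _ _)
  have h3 : ∑ x ∈ I, (I.filter (fun z => ¬ R z x)).card =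
      ∑ z ∈ I, (I.filter (fun x => ¬ R z x)).card := by
    simp_rw [card_filter]
    exact sum_comm
  have h4 : ∑ z ∈ I, (I.filter (fun x => ¬ R z x)).card ≤ I.card * (2 * k) := by
    rw [← smul_eq_mul, ← sum_const]
    exact sum_le_sum h
  rw [h3] at h2
  have h5 : Bd.card * (4 * k + 1) ≤ I.card * (2 * k) := h2.trans h4
  have h6 : 2 * Bd.card ≤ I.card := by
    by_contra hcon
    push Not at hcon
    have h7 : I.card + 1 ≤ 2 * Bd.card := hcon
    nlinarith
  omega

end Pool.Agent.R34.DS
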