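import Mathlib
import Pool.Agent.R34.DS.Struct

/-!
Hubs of low class in a neighbourhood.
-/

set_option autoImplicit false
set_option linter.unusedSectionVars false

namespace Pool.Agent.R34.DS

open Finset Classical

variable {V : Type} [Fintype V] {G : SimpleGraph V} {k m i0 : ℕ}

lemma beta_bound (v : V) (C : Finset V) (b : V → ℕ)
    (hC : ∀ x ∈ C, nn (b x) * (512 * m) ≤ ((W G (b x) x).filter (fun w => G.Adj v w)).card) :
    512 * m * C.card ≤ dg G v := by
  set g : V → ℝ := fun w => 1 / (nn (cls G w) : ℝ) with hg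
  have hg0 : ∀ w, 0 < g w := by
    intro w
    have : (0 : ℝ) < nn (cls G w) := by exact_mod_cast nn_pos _
    rw [hg]
    positivity
  have h1 : ∀ x ∈ C, (512 * m : ℝ) ≤ ∑ w ∈ nb G v, (if G.Adj x w then g w else 0) := by
    intro x hx
    have hb : (0 : ℝ) < nn (b x) := by exact_mod_cast nn_pos _
    have e1 : ∑ w ∈ (W G (b x) x).filter (fun w => G.Adj v w), (if G.Adj x w then g w else 0) ≤
        ∑ w ∈ nb G v, (if G.Adj x w then g w else 0) := by
      apply sum_le_sum_of_subset_of_nonneg
      · intro w hw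
        exact mem_nb.2 (mem_filter.1 hw).2
      · intro w _ _
        split_ifs
        · exact (hg0 w).le
        · exact le_refl _
    have e2 : ∑ w ∈ (W G (b x) x).filter (fun w => G.Adj v w), (if G.Adj x w then g w else 0) =
        ((W G (b x) x).filter (fun w => G.Adj v w)).card * (1 / (nn (b x) : ℝ)) := by
      rw [← nsmul_eq_mul, ← sum_const]
      apply sum_congr rfl
      intro w hw
      have h2 := mem_W.1 (mem_filter.1 hw).1
      rw [if_pos h2.1, hg]
      simp only
      rw [h2.2]
    rw [e2] at e1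
    refine le_trans ?_ e1
    rw [mul_one_div, le_div_iff₀ hb]
    have h3 := hC x hx
    have h4 : ((nn (b x) * (512 * m) : ℕ) : ℝ) ≤
        (((W G (b x) x).filter (fun w => G.Adj v w)).card : ℝ) := by exact_mod_cast h3
    push_cast at h4
    linarith
  have h2 : (512 * m : ℝ) * C.card ≤ dg G v := by
    calc (512 * m : ℝ) * C.card = ∑ _x ∈ C, (512 * m : ℝ) := by
          rw [sum_const, nsmul_eq_mul]
          ring
      _ ≤ ∑ x ∈ C, ∑ w ∈ nb G v, (if G.Adj x w then g w else 0) := sum_le_sum h1
      _ = ∑ w ∈ nb G v, ∑ x ∈ C, (if G.Adj x w then g w else 0) := sum_comm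
      _ ≤ ∑ _w ∈ nb G v, (1 : ℝ) := by
          apply sum_le_sum
          intro w _
          rw [← sum_filter, sum_const, nsmul_eq_mul]
          have e1 : (C.filter (fun x => G.Adj x w)).card ≤ nn (cls G w) := by
            have e2 : C.filter (fun x => G.Adj x w) ⊆ nb G w := by
              intro x hx
              exact mem_nb.2 (mem_filter.1 hx).2.symm
            have e3 := card_le_card e2
            have e4 := dg_lt G w
            unfold dg at e4
            omega
          have e2 : (0 : ℝ) < nn (cls G w) := by exact_mod_cast nn_pos _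
          rw [hg]
          simp only
          rw [mul_one_div, div_le_one e2]
          exact_mod_cast e1
      _ = dg G v := by
          rw [sum_const, nsmul_eq_mul, mul_one]
          rfl
  have h3 : ((512 * m * C.card : ℕ) : ℝ) ≤ ((dg G v : ℕ) : ℝ) := by
    push_cast
    exact h2
  exact_mod_cast h3

lemma alpha_bound (hk : 1 ≤ k) (h : DSF G k) (hP : Par k m i0) (hcls : ∀ v : V, i0 ≤ cls G v)
    {v : V} {I : Finset V} (hI : I ⊆ nb G v) (hind : Ind G I) (b : V → ℕ)
    (hb : ∀ x ∈ I, b x + cc m < cls G v ∧ hb k (b x) < (W G (b x) x).card ∧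
      2 * ((W G (b x) x).filter (fun w => G.Adj v w)).card < (W G (b x) x).card) :
    512 * m ^ 2 * I.card ≤ nn (cls G v) := by
  rcases I.eq_empty_or_nonempty with hemp | ⟨x, hx⟩
  · rw [hemp, card_empty, Nat.mul_zero]
    exact Nat.zero_le _
  obtain ⟨h1, h2, h3⟩ := hb x hx
  set c := b x with hc
  have hi0 : i0 ≤ c := le_of_hub hcls (x := x) (lt_of_le_of_lt (Nat.zero_le _) h2)
  have hlt : I.card < nn c + k := by
    by_contra hcon
    push Not at hcon
    obtain ⟨I', hxI', hI'I, hI'c⟩ := exists_subsuperset_card_eq (s := {x}) (t := I)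
      (n := nn c + k) (singleton_subset_iff.2 hx) (by
        rw [card_singleton]
        omega) hcon
    have hxI : x ∈ I' := singleton_subset_iff.1 hxI'
    have h4 := ind_case hk h (hI'I.trans hI) (hind.mono hI'I) hxI c
    rw [hI'c] at h4
    have h5 := hP.p2 c hi0
    have h6 : ((W G c x).filter (fun w => G.Adj v w)).card +
        ((W G c x).filter (fun w => ¬ G.Adj v w)).card = (W G c x).card :=
      card_filter_add_card_filter_not _
    have h7 : ∃ w ∈ (W G c x).filter (fun w => ¬ G.Adj v w),
        w ∉ (W G c x).filter (fun w => ¬ G.Adj v w ∧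
          k ≤ ((I'.erase x).filter (fun y => ¬ G.Adj w y)).card) := by
      by_contra h8
      push Not at h8
      have h9 := card_le_card (show (W G c x).filter (fun w => ¬ G.Adj v w) ⊆
        (W G c x).filter (fun w => ¬ G.Adj v w ∧
          k ≤ ((I'.erase x).filter (fun y => ¬ G.Adj w y)).card) from h8)
      omega
    obtain ⟨w, hw, hw2⟩ := h7
    obtain ⟨hw3, hw4⟩ := mem_filter.1 hw
    have h8 : ((I'.erase x).filter (fun y => ¬ G.Adj w y)).card < k := by
      by_contra h9
      exact hw2 (mem_filter.2 ⟨hw3, hw4, not_lt.1 h9⟩)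
    have h9 : ((I'.erase x).filter (fun y => G.Adj w y)).card +
        ((I'.erase x).filter (fun y => ¬ G.Adj w y)).card = (I'.erase x).card :=
      card_filter_add_card_filter_not _
    rw [card_erase_of_mem hxI, hI'c] at h9
    have h10 : ((I'.erase x).filter (fun y => G.Adj w y)).card ≤ (nb G w).card := by
      apply card_le_card
      intro y hy
      exact mem_nb.2 (mem_filter.1 hy).2
    have h11 := dg_lt_of_mem_W hw3
    unfold dg at h11
    omega
  have h4 := cc_mul h1
  have h5 := hP.p5 (cls G v) (hcls v)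
  have h6 : 512 * m ^ 2 * I.card ≤ 512 * m ^ 2 * (nn c + k) := Nat.mul_le_mul_left _ hlt.le
  have h7 : 2 * (512 * m ^ 2 * (nn c + k)) = 1024 * m ^ 2 * nn c + 1024 * m ^ 2 * k := by ring
  omega

/-- few low hubs of a neighbourhood can be coloured by the rule -/
lemma low_bound (hk : 1 ≤ k) (hm : 1 ≤ m) (h : DSF G k) (hP : Par k m i0)
    (hcls : ∀ v : V, i0 ≤ cls G v) {v : V} {C : Finset V} (hC : C ⊆ nb G v)
    (hlow : ∀ x ∈ C, Low G k m v x)
    (hind : ∀ C' ⊆ C, ∃ I ⊆ C', Ind G I ∧ C'.card ≤ m * I.card) :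
    512 * m * C.card ≤ 2 * nn (cls G v) := by
  choose! b hb1 hb2 using hlow
  set Cb := C.filter (fun x => (W G (b x) x).card ≤
    2 * ((W G (b x) x).filter (fun w => G.Adj v w)).card) with hCb
  set Ca := C.filter (fun x => ¬ (W G (b x) x).card ≤
    2 * ((W G (b x) x).filter (fun w => G.Adj v w)).card) with hCa
  have h1 : Cb.card + Ca.card = C.card := card_filter_add_card_filter_not _
  have h2 : 512 * m * Cb.card ≤ dg G v := by
    apply beta_bound v Cb b
    intro x hx
    obtain ⟨h3, h4⟩ := mem_filter.1 hx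
    have h5 := hb2 x h3
    have h6 := hP.p3 (b x) (le_of_hub hcls (x := x) (lt_of_le_of_lt (Nat.zero_le _) h5))
    omega
  obtain ⟨I, hI, hIi, hIc⟩ := hind Ca (filter_subset _ _)
  have h3 : 512 * m ^ 2 * I.card ≤ nn (cls G v) := by
    apply alpha_bound hk h hP hcls (hI.trans ((filter_subset _ _).trans hC)) hIi b
    intro x hx
    obtain ⟨h4, h5⟩ := mem_filter.1 (hI hx)
    exact ⟨hb1 x h4, hb2 x h4, not_le.1 h5⟩
  have h4 : 512 * m * Ca.card ≤ 512 * m ^ 2 * I.card := by
    calc 512 * m * Ca.card ≤ 512 * m * (m * I.card) := Nat.mul_le_mul_left _ hIc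
      _ = 512 * m ^ 2 * I.card := by ring
  have h5 := dg_lt G v
  have h6 : 512 * m * C.card = 512 * m * Cb.card + 512 * m * Ca.card := by
    rw [← h1]
    ring
  omega

end Pool.Agent.R34.DS
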