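import Mathlib
import Pool.Agent.R34.DS.LowB

/-!
The family of sets on which every colour has to occur.
-/

set_option autoImplicit false
set_option linter.unusedSectionVars false

namespace Pool.Agent.R34.DS

open Finset Classical

variable {V : Type} [Fintype V] (G : SimpleGraph V) (k m : ℕ)

/-- the vertex whose neighbourhood excuses `x` -/
noncomputable def gv (x : V) : V := if h : Exc G k m x then h.choose else x

/-- the independent set that excuses `x` -/
noncomputable def gI (x : V) : Finset V := if h : Exc G k m x then h.choose_spec.choose else ∅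

/-- the neighbours of `x` that do not see almost all of `gI x` -/
noncomputable def B1 (x : V) (b : ℕ) : Finset V := (W G b x).filter (fun w =>
  G.Adj w (gv G k m x) ∨ k ≤ (((gI G k m x).erase x).filter (fun y => ¬ G.Adj w y)).card)

/-- a large independent set of hubs -/
noncomputable def Iv (v : V) : Finset V :=
  if h : ∃ I ⊆ (T G k v).filter (fun x => ¬ Exc G k m x), Ind G I ∧
    ((T G k v).filter (fun x => ¬ Exc G k m x)).card ≤ m * I.card then h.choose else ∅

/-- `w` is a witness for `x` -/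
def Cand (x : V) (a : ℕ) (w : V) : Prop := cls G w = a ∧ nn a ≤ 6 * m * (Iv G k m w).card ∧
  x ∈ Iv G k m w ∧ ((Iv G k m w).filter (fun z => ¬ Do G a z x)).card ≤ 4 * k

/-- the chosen witness -/
noncomputable def wh (x : V) (a : ℕ) : V := if h : ∃ w, Cand G k m x a w then h.choose else x

/-- the independent set of hubs that goes with `x` -/
noncomputable def JJ (x : V) (a : ℕ) : Finset V :=
  (Iv G k m (wh G k m x a)).filter (fun z => Do G a z x)

/-- the neighbours of `x` that do not see almost all of `JJ x` or are not typical -/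
noncomputable def B2 (x : V) (a : ℕ) : Finset V := (W G a x).filter (fun w =>
  G.Adj w (wh G k m x a) ∨ k ≤ (((JJ G k m x a).erase x).filter (fun y => ¬ G.Adj w y)).card ∨
    ∃ z ∈ JJ G k m x a, G.Adj w z ∧ ¬ Typ G k w z)

/-- the excused hubs for which `v` is bad -/
noncomputable def X1 (v : V) : Finset V :=
  (T G k v).filter (fun x => Exc G k m x ∧ v ∈ B1 G k m x (cls G v))

/-- the good hubs for which `v` is bad -/
noncomputable def X2 (v : V) : Finset V :=
  (Iv G k m v).filter (fun x => Cand G k m x (cls G v) v ∧ v ∈ B2 G k m x (cls G v))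

/-- the family -/
noncomputable def Fam : Finset (ℕ × Finset V) :=
  ((((((univ : Finset V).filter (fun v => nn (cls G v) ≤ 6 * (E G k v).card)).image
    (fun v => (cls G v, E G k v))) ∪
  (((univ : Finset V).filter (fun x => Exc G k m x)).image
    (fun x => (cls G (gv G k m x), gI G k m x)))) ∪
  (((univ : Finset V).filter (fun v => nn (cls G v) ≤ 6 * (X1 G k m v).card)).image
    (fun v => (cls G v, X1 G k m v)))) ∪
  (((univ : Finset (V × V)).filter (fun q => Cand G k m q.1 (cls G q.2) q.2)).image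
    (fun q => (cls G q.2, JJ G k m q.1 (cls G q.2))))) ∪
  (((univ : Finset V).filter (fun v => nn (cls G v) ≤ 12 * m * (X2 G k m v).card)).image
    (fun v => (cls G v, X2 G k m v)))

variable {G k m}

lemma mem_Fam {p : ℕ × Finset V} : p ∈ Fam G k m ↔
    (((((∃ v, nn (cls G v) ≤ 6 * (E G k v).card ∧ (cls G v, E G k v) = p) ∨
    (∃ x, Exc G k m x ∧ (cls G (gv G k m x), gI G k m x) = p)) ∨
    (∃ v, nn (cls G v) ≤ 6 * (X1 G k m v).card ∧ (cls G v, X1 G k m v) = p)) ∨
    (∃ x w, Cand G k m x (cls G w) w ∧ (cls G w, JJ G k m x (cls G w)) = p)) ∨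
    (∃ v, nn (cls G v) ≤ 12 * m * (X2 G k m v).card ∧ (cls G v, X2 G k m v) = p)) := by
  unfold Fam
  simp only [mem_union, mem_image, mem_filter, mem_univ, true_and, Prod.exists]

lemma g_spec {x : V} (h : Exc G k m x) :
    gI G k m x ⊆ (E G k (gv G k m x)).filter (fun y => ¬ Low G k m (gv G k m x) y) ∧
    Ind G (gI G k m x) ∧ (gI G k m x).card = qq m (cls G (gv G k m x)) ∧ x ∈ gI G k m x := by
  have h1 : gv G k m x = h.choose := by
    unfold gv
    rw [dif_pos h]
  have h2 : gI G k m x = h.choose_spec.choose := by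
    unfold gI
    rw [dif_pos h]
  rw [h1, h2]
  exact h.choose_spec.choose_spec

lemma exc_of_mem_gI {x y : V} (h : Exc G k m x) (hy : y ∈ gI G k m x) : Exc G k m y := by
  obtain ⟨h1, h2, h3, _⟩ := g_spec h
  exact ⟨_, _, h1, h2, h3, hy⟩

lemma gI_sub_nb {x : V} (h : Exc G k m x) : gI G k m x ⊆ nb G (gv G k m x) := by
  intro y hy
  have := (mem_filter.1 ((g_spec h).1 hy)).1
  exact mem_nb.2 (mem_E.1 this).1

lemma Iv_sub (v : V) : Iv G k m v ⊆ (T G k v).filter (fun x => ¬ Exc G k m x) := by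
  unfold Iv
  split_ifs with h
  · exact h.choose_spec.1
  · exact empty_subset _

lemma Iv_ind (v : V) : Ind G (Iv G k m v) := by
  unfold Iv
  split_ifs with h
  · exact h.choose_spec.2.1
  · exact fun a ha => absurd ha (notMem_empty _)

lemma Iv_card {v : V} (h : ∃ I ⊆ (T G k v).filter (fun x => ¬ Exc G k m x), Ind G I ∧
    ((T G k v).filter (fun x => ¬ Exc G k m x)).card ≤ m * I.card) :
    ((T G k v).filter (fun x => ¬ Exc G k m x)).card ≤ m * (Iv G k m v).card := by
  have h1 : Iv G k m v = h.choose := by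
    unfold Iv
    rw [dif_pos h]
  rw [h1]
  exact h.choose_spec.2.2

lemma Iv_sub_nb (v : V) : Iv G k m v ⊆ nb G v := by
  intro y hy
  have := (mem_filter.1 (Iv_sub v hy)).1
  exact mem_nb.2 (mem_T.1 this).1

lemma wh_spec {x : V} {a : ℕ} (h : ∃ w, Cand G k m x a w) : Cand G k m x a (wh G k m x a) := by
  have h1 : wh G k m x a = h.choose := by
    unfold wh
    rw [dif_pos h]
  rw [h1]
  exact h.choose_spec

lemma card_B1 (hk : 1 ≤ k) (h : DSF G k) {x : V} {b : ℕ} (hx : Exc G k m x)
    (hb' : hb k b < (W G b x).card) :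
    (B1 G k m x b).card ≤ nn b * 2 ^ (cc m) + (nn b * 2 ^ (cc m)) ^ k * (k * nn b) := by
  obtain ⟨h1, h2, h3, h4⟩ := g_spec hx
  have h5 : cls G (gv G k m x) ≤ b + cc m := by
    by_contra hcon
    push Not at hcon
    exact (mem_filter.1 (h1 h4)).2 ⟨b, hcon, hb'⟩
  have h6 : nn (cls G (gv G k m x)) ≤ nn b * 2 ^ (cc m) := by
    calc nn (cls G (gv G k m x)) ≤ nn (b + cc m) := nn_mono h5
      _ = nn b * 2 ^ (cc m) := by
          unfold nn
          rw [← pow_add]
          congr 1
          omega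
  have h7 : (nb G (gv G k m x)).card ≤ nn b * 2 ^ (cc m) := (dg_lt G _).le.trans h6
  have h8 := ind_case hk h (gI_sub_nb hx) h2 h4 b
  have h9 : (gI G k m x).card ≤ nn b * 2 ^ (cc m) := (card_le_card (gI_sub_nb hx)).trans h7
  have h10 : B1 G k m x b ⊆ nb G (gv G k m x) ∪ (W G b x).filter (fun w =>
      ¬ G.Adj (gv G k m x) w ∧
      k ≤ (((gI G k m x).erase x).filter (fun y => ¬ G.Adj w y)).card) := by
    intro w hw
    obtain ⟨e1, e2⟩ := mem_filter.1 hw
    by_cases e3 : G.Adj w (gv G k m x)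
    · exact mem_union_left _ (mem_nb.2 e3.symm)
    · exact mem_union_right _ (mem_filter.2 ⟨e1, fun e4 => e3 e4.symm, e2.resolve_left e3⟩)
  have h11 := card_le_card h10
  have h12 := card_union_le (nb G (gv G k m x)) ((W G b x).filter (fun w =>
      ¬ G.Adj (gv G k m x) w ∧
      k ≤ (((gI G k m x).erase x).filter (fun y => ¬ G.Adj w y)).card))
  have h13 : (gI G k m x).card ^ k * (k * nn b) ≤ (nn b * 2 ^ (cc m)) ^ k * (k * nn b) :=
    Nat.mul_le_mul_right _ (Nat.pow_le_pow_left h9 _)
  omega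

lemma JJ_sub {x : V} {a : ℕ} : JJ G k m x a ⊆ Iv G k m (wh G k m x a) := filter_subset _ _

lemma hub_of_mem_JJ {x z : V} {a : ℕ} (h : ∃ w, Cand G k m x a w) (hz : z ∈ JJ G k m x a) :
    hb k a < (W G a z).card := by
  have h1 := (mem_T.1 (mem_filter.1 (Iv_sub _ (JJ_sub hz))).1).2.1
  rwa [(wh_spec h).1] at h1

lemma card_JJ_le {x : V} {a : ℕ} (h : ∃ w, Cand G k m x a w) : (JJ G k m x a).card ≤ nn a := by
  have h1 : (JJ G k m x a).card ≤ (nb G (wh G k m x a)).card :=
    card_le_card (JJ_sub.trans (Iv_sub_nb _))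
  have h2 := dg_lt G (wh G k m x a)
  rw [(wh_spec h).1] at h2
  exact h1.trans h2.le

lemma self_mem_JJ {x : V} {a : ℕ} (h : ∃ w, Cand G k m x a w) : x ∈ JJ G k m x a := by
  refine mem_filter.2 ⟨(wh_spec h).2.2.1, ?_⟩
  unfold Do
  have : (W G a x).filter (fun w => G.Adj x w) = W G a x := by
    apply filter_true_of_mem
    intro w hw
    exact (mem_W.1 hw).1
  rw [this]
  omega

lemma card_B2 {i0' : ℕ} (hk : 1 ≤ k) (h : DSF G k) (hP : Par k m i0') {x : V} {a : ℕ} (ha : i0' ≤ a)
    (hx : ∃ w, Cand G k m x a w) :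
    (B2 G k m x a).card ≤ nn a + nn a ^ k * (k * nn a) + nn a * hb k a := by
  have hs := wh_spec hx
  have hJn : JJ G k m x a ⊆ nb G (wh G k m x a) := JJ_sub.trans (Iv_sub_nb _)
  have hJi : Ind G (JJ G k m x a) := (Iv_ind (G := G) (k := k) (m := m) _).mono JJ_sub
  have hxJ := self_mem_JJ hx
  have h1 := ind_case hk h hJn hJi hxJ a
  have h2 := card_JJ_le hx
  have h3 : (JJ G k m x a).card ^ k * (k * nn a) ≤ nn a ^ k * (k * nn a) :=
    Nat.mul_le_mul_right _ (Nat.pow_le_pow_left h2 _)
  have h4 : (nb G (wh G k m x a)).card ≤ nn a := by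
    have := dg_lt G (wh G k m x a)
    rw [hs.1] at this
    exact this.le
  have h5 : ((JJ G k m x a).biUnion (fun z => (W G a z).filter (fun w => ¬ Typ G k w z))).card ≤
      nn a * hb k a := by
    refine le_trans (card_biUnion_le_card_mul _ _ (hb k a) (fun z hz => ?_))
      (Nat.mul_le_mul_right _ h2)
    exact card_not_typ hP ha (hub_of_mem_JJ hx hz)
  have h6 : B2 G k m x a ⊆ (nb G (wh G k m x a) ∪ (W G a x).filter (fun w =>
      ¬ G.Adj (wh G k m x a) w ∧
      k ≤ (((JJ G k m x a).erase x).filter (fun y => ¬ G.Adj w y)).card)) ∪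
      (JJ G k m x a).biUnion (fun z => (W G a z).filter (fun w => ¬ Typ G k w z)) := by
    intro w hw
    obtain ⟨e1, e2⟩ := mem_filter.1 hw
    by_cases e3 : G.Adj w (wh G k m x a)
    · exact mem_union_left _ (mem_union_left _ (mem_nb.2 e3.symm))
    · rcases e2.resolve_left e3 with e4 | ⟨z, hz, e4, e5⟩
      · exact mem_union_left _ (mem_union_right _
          (mem_filter.2 ⟨e1, fun e5 => e3 e5.symm, e4⟩))
      · refine mem_union_right _ (mem_biUnion.2 ⟨z, hz, mem_filter.2 ⟨mem_W.2 ⟨e4.symm, ?_⟩, e5⟩⟩)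
        exact (mem_W.1 e1).2
  have h7 := card_le_card h6
  have h8 := card_union_le (nb G (wh G k m x a) ∪ (W G a x).filter (fun w =>
      ¬ G.Adj (wh G k m x a) w ∧
      k ≤ (((JJ G k m x a).erase x).filter (fun y => ¬ G.Adj w y)).card))
      ((JJ G k m x a).biUnion (fun z => (W G a z).filter (fun w => ¬ Typ G k w z)))
  have h9 := card_union_le (nb G (wh G k m x a)) ((W G a x).filter (fun w =>
      ¬ G.Adj (wh G k m x a) w ∧
      k ≤ (((JJ G k m x a).erase x).filter (fun y => ¬ G.Adj w y)).card))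
  omega

end Pool.Agent.R34.DS
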