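import Mathlib
import Pool.Agent.R34.DS.Fam

/-!
The sets of the family are large, and no vertex is in many of them.
-/

set_option autoImplicit false
set_option linter.unusedSectionVars false

namespace Pool.Agent.R34.DS

open Finset Classical

variable {V : Type} [Fintype V] {G : SimpleGraph V} {k m i0 : ℕ}

lemma qq_big (hm : 1 ≤ m) {a : ℕ} (h : 512 * m ^ 2 ≤ nn a) : nn a ≤ 1024 * m ^ 2 * qq m a := by
  unfold qq
  have h0 : 0 < 512 * m ^ 2 := by positivity
  have h1 : 1 ≤ nn a / (512 * m ^ 2) := (Nat.one_le_div_iff h0).2 h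
  have h2 := Nat.lt_mul_div_succ (nn a) h0
  have h3 : 512 * m ^ 2 * (nn a / (512 * m ^ 2) + 1) ≤ 1024 * m ^ 2 * (nn a / (512 * m ^ 2)) := by
    have e1 : 512 * m ^ 2 * (nn a / (512 * m ^ 2) + 1) ≤
        512 * m ^ 2 * (2 * (nn a / (512 * m ^ 2))) := Nat.mul_le_mul_left _ (by omega)
    calc _ ≤ _ := e1
      _ = _ := by ring
  omega

lemma JJ_big {x : V} {a : ℕ} (h : ∃ w, Cand G k m x a w)
    (ha : 48 * m * k ≤ nn a) : nn a ≤ 12 * m * (JJ G k m x a).card := by
  obtain ⟨h1, h2, h3, h4⟩ := wh_spec h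
  have h5 : (JJ G k m x a).card +
      ((Iv G k m (wh G k m x a)).filter (fun z => ¬ Do G a z x)).card =
      (Iv G k m (wh G k m x a)).card := card_filter_add_card_filter_not _
  have h6 : (Iv G k m (wh G k m x a)).card ≤ (JJ G k m x a).card + 4 * k := by omega
  have h7 : 6 * m * (Iv G k m (wh G k m x a)).card ≤ 6 * m * ((JJ G k m x a).card + 4 * k) :=
    Nat.mul_le_mul_left _ h6
  have h8 : 2 * (6 * m * ((JJ G k m x a).card + 4 * k)) =
      12 * m * (JJ G k m x a).card + 48 * m * k := by ring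
  omega

/-- the sets of the family are large -/
lemma Fam_big (hk : 1 ≤ k) (hm : 1 ≤ m) (hcls : ∀ v : V, i0 ≤ cls G v)
    (hnn : ∀ a, i0 ≤ a → 4096 * m ^ 3 * k ≤ nn a) {p : ℕ × Finset V} (hp : p ∈ Fam G k m) :
    i0 ≤ p.1 ∧ nn p.1 ≤ 1024 * m ^ 2 * p.2.card := by
  have hm2 : m ≤ m ^ 2 := by nlinarith
  have hm3 : m ^ 2 ≤ m ^ 3 := Nat.pow_le_pow_right hm (by norm_num)
  have h48 : ∀ a, i0 ≤ a → 48 * m * k ≤ nn a := by
    intro a ha
    refine le_trans ?_ (hnn a ha)
    apply Nat.mul_le_mul_right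
    omega
  have h512 : ∀ a, i0 ≤ a → 512 * m ^ 2 ≤ nn a := by
    intro a ha
    refine le_trans ?_ (hnn a ha)
    calc 512 * m ^ 2 ≤ 4096 * m ^ 3 := by omega
      _ ≤ 4096 * m ^ 3 * k := Nat.le_mul_of_pos_right _ hk
  have h6 : ∀ c : ℕ, 6 * c ≤ 1024 * m ^ 2 * c := by
    intro c
    apply Nat.mul_le_mul_right
    omega
  have h12 : ∀ c : ℕ, 12 * m * c ≤ 1024 * m ^ 2 * c := by
    intro c
    apply Nat.mul_le_mul_right
    omega
  rcases mem_Fam.1 hp with (((⟨v, h1, rfl⟩ | ⟨x, h1, rfl⟩) | ⟨v, h1, rfl⟩) | ⟨x, w, h1, rfl⟩) |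
    ⟨v, h1, rfl⟩
  · exact ⟨hcls v, h1.trans (h6 _)⟩
  · refine ⟨hcls _, ?_⟩
    simp only
    rw [(g_spec h1).2.2.1]
    exact qq_big hm (h512 _ (hcls _))
  · exact ⟨hcls v, h1.trans (h6 _)⟩
  · exact ⟨hcls w, (JJ_big ⟨w, h1⟩ (h48 _ (hcls w))).trans (h12 _)⟩
  · exact ⟨hcls v, h1.trans (h12 _)⟩

lemma card_le_of_ex {F : Finset (ℕ × Finset V)} {S : Finset V} (f : V → ℕ × Finset V)
    (h : ∀ p ∈ F, ∃ i ∈ S, f i = p) : F.card ≤ S.card := by
  have h1 : F ⊆ S.image f := by
    intro p hp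
    obtain ⟨i, hi, hip⟩ := h p hp
    exact mem_image.2 ⟨i, hi, hip⟩
  exact (card_le_card h1).trans card_image_le

/-- no vertex is in many sets of the family -/
lemma Fam_few (hk : 1 ≤ k) (h : DSF G k) (hP : Par k m i0) (hcls : ∀ v : V, i0 ≤ cls G v)
    (z : V) (j : ℕ) :
    ((Fam G k m).filter (fun p => p.1 = j ∧ z ∈ p.2)).card ≤
      hb k j + hb k j * nn j + (nn j * 2 ^ (cc m) + (nn j * 2 ^ (cc m)) ^ k * (k * nn j)) +
      2 * nn j + (nn j + nn j ^ k * (k * nn j) + nn j * hb k j) := by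
  set S1 := (univ : Finset V).filter (fun v => cls G v = j ∧ z ∈ E G k v) with hS1
  set S2 := S1.biUnion (nb G) with hS2
  set S3 := (univ : Finset V).filter (fun v => cls G v = j ∧ z ∈ X1 G k m v) with hS3
  set S4 := (univ : Finset V).filter (fun x => (∃ w, Cand G k m x j w) ∧ z ∈ JJ G k m x j) with hS4
  set S5 := (univ : Finset V).filter (fun v => cls G v = j ∧ z ∈ X2 G k m v) with hS5
  set F := (Fam G k m).filter (fun p => p.1 = j ∧ z ∈ p.2) with hF
  have hsub : F ⊆ ((((S1.image (fun v => (cls G v, E G k v))) ∪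
      (S2.image (fun x => (cls G (gv G k m x), gI G k m x)))) ∪
      (S3.image (fun v => (cls G v, X1 G k m v)))) ∪
      (S4.image (fun x => (j, JJ G k m x j)))) ∪
      (S5.image (fun v => (cls G v, X2 G k m v))) := by
    intro p hp
    obtain ⟨h1, h2, h3⟩ := mem_filter.1 hp
    rcases mem_Fam.1 h1 with (((⟨v, h4, rfl⟩ | ⟨x, h4, rfl⟩) | ⟨v, h4, rfl⟩) | ⟨x, w, h4, rfl⟩) |
      ⟨v, h4, rfl⟩
    · refine mem_union_left _ (mem_union_left _ (mem_union_left _ (mem_union_left _ ?_)))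
      exact mem_image.2 ⟨v, mem_filter.2 ⟨mem_univ _, h2, h3⟩, rfl⟩
    · refine mem_union_left _ (mem_union_left _ (mem_union_left _ (mem_union_right _ ?_)))
      refine mem_image.2 ⟨x, mem_biUnion.2 ⟨gv G k m x, mem_filter.2 ⟨mem_univ _, h2, ?_⟩,
        gI_sub_nb h4 (g_spec h4).2.2.2⟩, rfl⟩
      exact (mem_filter.1 ((g_spec h4).1 h3)).1
    · refine mem_union_left _ (mem_union_left _ (mem_union_right _ ?_))
      exact mem_image.2 ⟨v, mem_filter.2 ⟨mem_univ _, h2, h3⟩, rfl⟩
    · refine mem_union_left _ (mem_union_right _ ?_)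
      simp only at h2 h3
      refine mem_image.2 ⟨x, mem_filter.2 ⟨mem_univ _, ⟨w, ?_⟩, ?_⟩, ?_⟩
      · rw [← h2]
        exact h4
      · rw [← h2]
        exact h3
      · rw [← h2]
    · refine mem_union_right _ ?_
      exact mem_image.2 ⟨v, mem_filter.2 ⟨mem_univ _, h2, h3⟩, rfl⟩
  by_cases hj : i0 ≤ j
  · have c1 : S1.card ≤ hb k j := card_E hP hj z
    have c2 : S2.card ≤ hb k j * nn j := by
      refine le_trans (card_biUnion_le_card_mul _ _ (nn j) (fun v hv => ?_))
        (Nat.mul_le_mul_right _ c1)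
      have h1 := (mem_filter.1 hv).2.1
      have h2 := dg_lt G v
      rw [h1] at h2
      exact h2.le
    have c3 : S3.card ≤ nn j * 2 ^ (cc m) + (nn j * 2 ^ (cc m)) ^ k * (k * nn j) := by
      rcases S3.eq_empty_or_nonempty with h1 | ⟨v, hv⟩
      · rw [h1, card_empty]
        exact Nat.zero_le _
      · obtain ⟨-, h1, h2⟩ := mem_filter.1 hv
        obtain ⟨h3, h4, h5⟩ := mem_filter.1 h2
        have h6 : S3 ⊆ B1 G k m z j := by
          intro u hu
          obtain ⟨-, e1, e2⟩ := mem_filter.1 hu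
          have e3 := (mem_filter.1 e2).2.2
          rwa [e1] at e3
        have h7 := (mem_T.1 h3).2.1
        rw [h1] at h7
        exact (card_le_card h6).trans (card_B1 hk h h4 h7)
    have c4 : S4.card ≤ 2 * nn j := by
      rcases S4.eq_empty_or_nonempty with h1 | ⟨v, hv⟩
      · rw [h1, card_empty]
        exact Nat.zero_le _
      · obtain ⟨-, h1, h2⟩ := mem_filter.1 hv
        have h3 := hub_of_mem_JJ h1 h2
        refine le_trans (card_le_card ?_) (card_Do (G := G) (a := j) (z := z)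
          (lt_of_le_of_lt (Nat.zero_le _) h3))
        intro x hx
        obtain ⟨-, e1, e2⟩ := mem_filter.1 hx
        exact mem_filter.2 ⟨mem_univ _, (mem_filter.1 e2).2⟩
    have c5 : S5.card ≤ nn j + nn j ^ k * (k * nn j) + nn j * hb k j := by
      rcases S5.eq_empty_or_nonempty with h1 | ⟨v, hv⟩
      · rw [h1, card_empty]
        exact Nat.zero_le _
      · obtain ⟨-, h1, h2⟩ := mem_filter.1 hv
        obtain ⟨h3, h4, h5⟩ := mem_filter.1 h2
        rw [h1] at h4
        have h6 : S5 ⊆ B2 G k m z j := by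
          intro u hu
          obtain ⟨-, e1, e2⟩ := mem_filter.1 hu
          have e3 := (mem_filter.1 e2).2.2
          rwa [e1] at e3
        exact (card_le_card h6).trans (card_B2 hk h hP hj ⟨v, h4⟩)
    have u0 := card_le_card hsub
    have u1 := card_union_le ((((S1.image (fun v => (cls G v, E G k v))) ∪
      (S2.image (fun x => (cls G (gv G k m x), gI G k m x)))) ∪
      (S3.image (fun v => (cls G v, X1 G k m v)))) ∪
      (S4.image (fun x => (j, JJ G k m x j)))) (S5.image (fun v => (cls G v, X2 G k m v)))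
    have u2 := card_union_le (((S1.image (fun v => (cls G v, E G k v))) ∪
      (S2.image (fun x => (cls G (gv G k m x), gI G k m x)))) ∪
      (S3.image (fun v => (cls G v, X1 G k m v)))) (S4.image (fun x => (j, JJ G k m x j)))
    have u3 := card_union_le ((S1.image (fun v => (cls G v, E G k v))) ∪
      (S2.image (fun x => (cls G (gv G k m x), gI G k m x))))
      (S3.image (fun v => (cls G v, X1 G k m v)))
    have u4 := card_union_le (S1.image (fun v => (cls G v, E G k v)))
      (S2.image (fun x => (cls G (gv G k m x), gI G k m x)))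
    have i1 : (S1.image (fun v => (cls G v, E G k v))).card ≤ S1.card := card_image_le
    have i2 : (S2.image (fun x => (cls G (gv G k m x), gI G k m x))).card ≤ S2.card :=
      card_image_le
    have i3 : (S3.image (fun v => (cls G v, X1 G k m v))).card ≤ S3.card := card_image_le
    have i4 : (S4.image (fun x => (j, JJ G k m x j))).card ≤ S4.card := card_image_le
    have i5 : (S5.image (fun v => (cls G v, X2 G k m v))).card ≤ S5.card := card_image_le
    omega
  · have h1 : F = ∅ := by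
      apply eq_empty_of_forall_notMem
      intro p hp
      obtain ⟨h1, h2, h3⟩ := mem_filter.1 hp
      apply hj
      rw [← h2]
      rcases mem_Fam.1 h1 with (((⟨v, h4, rfl⟩ | ⟨x, h4, rfl⟩) | ⟨v, h4, rfl⟩) |
        ⟨x, w, h4, rfl⟩) | ⟨v, h4, rfl⟩ <;> exact hcls _
    rw [h1, card_empty]
    exact Nat.zero_le _

end Pool.Agent.R34.DS
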