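import Mathlib
import Pool.Agent.Helper208.Rainbow.LLL
import Pool.Agent.R34.DS.Basic

/-!
The local lemma for the events that a colour occurs rarely on a finite set.
-/

set_option autoImplicit false
set_option linter.unusedSectionVars false

namespace Pool.Agent.R34.DS

open Finset Classical

section Tail

variable {V : Type} [Fintype V] {m : ℕ}

/-- number of vertices of `F` of colour `c` -/
noncomputable def occ (F : Finset V) (c : Fin m) (U : V → Fin m) : ℕ :=
  (F.filter (fun z => U z = c)).card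

lemma sum_half (hm : 1 ≤ m) (F : Finset V) (c : Fin m) :
    ∑ U : V → Fin m, (1 / 2 : ℝ) ^ (occ F c U) =
      (m : ℝ) ^ (Fintype.card V) * (1 - 1 / (2 * m)) ^ F.card := by
  have hm0 : (0 : ℝ) < m := by exact_mod_cast hm
  have h1 : ∀ U : V → Fin m, (1 / 2 : ℝ) ^ (occ F c U) =
      ∏ z : V, (if z ∈ F ∧ U z = c then (1 / 2 : ℝ) else 1) := by
    intro U
    rw [prod_ite, prod_const_one, mul_one, prod_const]
    congr 1
    unfold occ
    congr 1
    ext z
    simp only [mem_filter, mem_univ, true_and]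
  have h2 : ∀ z : V, ∑ d : Fin m, (if z ∈ F ∧ d = c then (1 / 2 : ℝ) else 1) =
      m * (if z ∈ F then (1 - 1 / (2 * (m : ℝ))) else 1) := by
    intro z
    by_cases hz : z ∈ F
    · have e1 : ∀ d : Fin m, (if z ∈ F ∧ d = c then (1 / 2 : ℝ) else 1) =
          1 - (if d = c then (1 / 2 : ℝ) else 0) := by
        intro d
        by_cases hd : d = c
        · rw [if_pos ⟨hz, hd⟩, if_pos hd]
          norm_num
        · rw [if_neg (fun h => hd h.2), if_neg hd]
          norm_num
      rw [sum_congr rfl (fun d _ => e1 d), sum_sub_distrib, sum_const, card_univ, Fintype.card_fin,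
        sum_ite_eq' univ c, if_pos (mem_univ _), if_pos hz, nsmul_eq_mul]
      field_simp
    · rw [if_neg hz, sum_congr rfl (fun d _ => if_neg (fun h => hz h.1)), sum_const, card_univ,
        Fintype.card_fin, nsmul_eq_mul]
  calc ∑ U : V → Fin m, (1 / 2 : ℝ) ^ (occ F c U)
      = ∑ U : V → Fin m, ∏ z : V, (if z ∈ F ∧ U z = c then (1 / 2 : ℝ) else 1) :=
        sum_congr rfl (fun U _ => h1 U)
    _ = ∏ z : V, ∑ d : Fin m, (if z ∈ F ∧ d = c then (1 / 2 : ℝ) else 1) := by
        rw [Finset.prod_univ_sum (fun _ : V => (univ : Finset (Fin m)))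
          (fun z d => if z ∈ F ∧ d = c then (1 / 2 : ℝ) else 1), Fintype.piFinset_univ]
    _ = ∏ z : V, ((m : ℝ) * (if z ∈ F then (1 - 1 / (2 * (m : ℝ))) else 1)) :=
        prod_congr rfl (fun z _ => h2 z)
    _ = (m : ℝ) ^ (Fintype.card V) * (1 - 1 / (2 * m)) ^ F.card := by
        rw [prod_mul_distrib, prod_const, card_univ, prod_ite, prod_const_one, mul_one, prod_const]
        congr 2
        congr 1
        ext z
        simp only [mem_filter, mem_univ, true_and]

lemma poor_card (hm : 1 ≤ m) (F : Finset V) (c : Fin m) :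
    (((univ : Finset (V → Fin m)).filter (fun U => 4 * m * occ F c U ≤ F.card)).card : ℝ) ≤
      Real.exp (-(F.card / (4 * m))) * (m : ℝ) ^ (Fintype.card V) := by
  have hm0 : (0 : ℝ) < m := by exact_mod_cast hm
  have hm1 : (1 : ℝ) ≤ m := by exact_mod_cast hm
  set S := (univ : Finset (V → Fin m)).filter (fun U => 4 * m * occ F c U ≤ F.card) with hS
  have h1 : (S.card : ℝ) * Real.exp (-(F.card / (4 * m))) ≤
      ∑ U : V → Fin m, (1 / 2 : ℝ) ^ (occ F c U) := by
    calc (S.card : ℝ) * Real.exp (-(F.card / (4 * m)))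
        = ∑ _U ∈ S, Real.exp (-(F.card / (4 * m))) := by rw [sum_const, nsmul_eq_mul]
      _ ≤ ∑ U ∈ S, (1 / 2 : ℝ) ^ (occ F c U) := by
          apply sum_le_sum
          intro U hU
          have h2 := (mem_filter.1 hU).2
          have h3 : (occ F c U : ℝ) ≤ F.card / (4 * m) := by
            rw [le_div_iff₀ (by positivity)]
            have : ((4 * m * occ F c U : ℕ) : ℝ) ≤ (F.card : ℝ) := by exact_mod_cast h2
            push_cast at this
            linarith
          have h4 : Real.exp (-1) ≤ 1 / 2 := by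
            rw [Real.exp_neg, one_div]
            apply inv_anti₀ (by norm_num)
            have := Real.exp_one_gt_d9
            linarith
          have h4' : Real.exp (-1) ≤ 1 / 2 := h4
          calc Real.exp (-(F.card / (4 * m))) ≤ Real.exp (-(occ F c U : ℝ)) :=
                Real.exp_le_exp.2 (by linarith)
            _ = Real.exp (-1) ^ (occ F c U) := by
                rw [← Real.exp_nat_mul]
                congr 1
                ring
            _ ≤ (1 / 2) ^ (occ F c U) := pow_le_pow_left₀ (Real.exp_pos _).le h4 _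
      _ ≤ ∑ U : V → Fin m, (1 / 2 : ℝ) ^ (occ F c U) :=
          sum_le_sum_of_subset_of_nonneg (subset_univ _) (fun _ _ _ => by positivity)
  rw [sum_half hm F c] at h1
  have h2 : (1 - 1 / (2 * (m : ℝ))) ^ F.card ≤ Real.exp (-(F.card / (2 * m))) := by
    have h3 : (1 - 1 / (2 * (m : ℝ))) ≤ Real.exp (-(1 / (2 * m))) := by
      have := Real.add_one_le_exp (-(1 / (2 * (m : ℝ))))
      linarith
    have h4 : 0 ≤ 1 - 1 / (2 * (m : ℝ)) := by
      have : 1 / (2 * (m : ℝ)) ≤ 1 := by
        rw [div_le_one (by positivity)]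
        linarith
      linarith
    calc (1 - 1 / (2 * (m : ℝ))) ^ F.card ≤ Real.exp (-(1 / (2 * m))) ^ F.card :=
          pow_le_pow_left₀ h4 h3 _
      _ = _ := by
          rw [← Real.exp_nat_mul]
          congr 1
          ring
  have h3 : (S.card : ℝ) * Real.exp (-(F.card / (4 * m))) ≤
      (m : ℝ) ^ (Fintype.card V) * Real.exp (-(F.card / (2 * m))) :=
    h1.trans (mul_le_mul_of_nonneg_left h2 (by positivity))
  have h4 : Real.exp (-(F.card / (2 * m))) =
      Real.exp (-(F.card / (4 * m))) * Real.exp (-((F.card : ℝ) / (4 * m))) := by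
    rw [← Real.exp_add]
    congr 1
    field_simp
    ring
  rw [h4] at h3
  have h5 := Real.exp_pos (-((F.card : ℝ) / (4 * m)))
  nlinarith

end Tail

lemma geo_sum (J : Finset ℕ) : ∑ j ∈ J, (1 / 2 : ℝ) ^ (j + 1) ≤ 1 := by
  have h1 : Summable (fun j : ℕ => (1 / 2 : ℝ) ^ (j + 1)) := by
    simp_rw [pow_succ]
    exact (summable_geometric_of_lt_one (by norm_num) (by norm_num)).mul_right _
  have h2 : ∑' j : ℕ, (1 / 2 : ℝ) ^ (j + 1) = 1 := by
    simp_rw [pow_succ]
    rw [tsum_mul_right, tsum_geometric_of_lt_one (by norm_num) (by norm_num)]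
    norm_num
  calc ∑ j ∈ J, (1 / 2 : ℝ) ^ (j + 1) ≤ ∑' j : ℕ, (1 / 2 : ℝ) ^ (j + 1) :=
        h1.sum_le_tsum _ (fun _ _ => by positivity)
    _ = 1 := h2

lemma nn_tendsto : Filter.Tendsto (fun j : ℕ => (nn j : ℝ)) Filter.atTop Filter.atTop := by
  have h : Filter.Tendsto (fun j : ℕ => (2 : ℝ) ^ (j + 1)) Filter.atTop Filter.atTop :=
    (tendsto_pow_atTop_atTop_of_one_lt (by norm_num : (1 : ℝ) < 2)).comp
      (Filter.tendsto_add_atTop_nat 1)
  refine h.congr (fun j => ?_)
  unfold nn
  push_cast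
  rfl

lemma small_tail (b ε : ℝ) (hb : 0 < b) (hε : 0 < ε) (K : ℕ) :
    ∀ᶠ j : ℕ in Filter.atTop, (nn j : ℝ) ^ K * Real.exp (-(b * nn j)) ≤ ε * (1 / 2) ^ (j + 1) := by
  have h1 := Real.tendsto_pow_mul_exp_neg_atTop_nhds_zero (K + 1)
  have h2 : Filter.Tendsto (fun j : ℕ => b * (nn j : ℝ)) Filter.atTop Filter.atTop :=
    nn_tendsto.const_mul_atTop hb
  have h3 := (h1.comp h2).eventually (gt_mem_nhds (show (0 : ℝ) < ε * b ^ (K + 1) by positivity))
  filter_upwards [h3] with j hj
  simp only [Function.comp_apply] at hj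
  have h4 : (nn j : ℝ) = 2 ^ (j + 1) := by
    unfold nn
    push_cast
    rfl
  have h5 : (0 : ℝ) < 2 ^ (j + 1) := by positivity
  rw [mul_pow] at hj
  have hb' : (0 : ℝ) < b ^ (K + 1) := by positivity
  have h6 : (nn j : ℝ) ^ (K + 1) * Real.exp (-(b * nn j)) < ε := by
    have : b ^ (K + 1) * ((nn j : ℝ) ^ (K + 1) * Real.exp (-(b * nn j))) < b ^ (K + 1) * ε := by
      linarith
    exact lt_of_mul_lt_mul_left this hb'.le
  have h7 : (1 / 2 : ℝ) ^ (j + 1) * 2 ^ (j + 1) = 1 := by
    rw [← mul_pow]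
    norm_num
  have h8 : (nn j : ℝ) ^ K * Real.exp (-(b * nn j)) * 2 ^ (j + 1) < ε := by
    rw [pow_succ] at h6
    rw [← h4]
    linarith
  have h9 : ε * (1 / 2) ^ (j + 1) * 2 ^ (j + 1) = ε := by
    rw [mul_assoc, h7, mul_one]
  nlinarith

/-- the local lemma for colours that occur rarely on finite sets -/
theorem poor_lll (m : ℕ) (hm : 1 ≤ m) (ρ : ℝ) (hρ : 0 < ρ) (K : ℕ) : ∃ i0 : ℕ,
    ∀ (V : Type) [Fintype V] (F : Finset (ℕ × Finset V)),
      (∀ p ∈ F, i0 ≤ p.1 ∧ ρ * nn p.1 ≤ p.2.card) →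
      (∀ (z : V) (j : ℕ), (F.filter (fun p => p.1 = j ∧ z ∈ p.2)).card ≤ nn j ^ K) →
      ∃ U : V → Fin m, ∀ p ∈ F, ∀ c : Fin m, p.2.card < 4 * m * occ p.2 c U := by
  have hm0 : (0 : ℝ) < m := by exact_mod_cast hm
  have hm1 : (1 : ℝ) ≤ m := by exact_mod_cast hm
  have e1 := small_tail (ρ / (8 * m)) (1 / (16 * m ^ 2)) (by positivity) (by positivity) K
  have e2 : ∀ᶠ j : ℕ in Filter.atTop, 8 * m / ρ ≤ (nn j : ℝ) :=
    nn_tendsto.eventually_ge_atTop _
  obtain ⟨i0, hi0⟩ := Filter.eventually_atTop.1 (e1.and e2)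
  refine ⟨i0, ?_⟩
  intro V _ F hF1 hF2
  have : Nonempty (Fin m) := ⟨⟨0, hm⟩⟩
  have : Nonempty (V → Fin m) := inferInstance
  obtain ⟨U, hU⟩ := Pool.Agent.Helper208.Rainbow.lll_exp
    (ι := {p // p ∈ F} × Fin m)
    (fun q : {p // p ∈ F} × Fin m =>
      (univ : Finset (V → Fin m)).filter (fun U => 4 * m * occ q.1.1.2 q.2 U ≤ q.1.1.2.card))
    (fun q => q.1.1.2)
    (by
      intro q U U' h
      simp only [mem_filter, mem_univ, true_and]
      have : occ q.1.1.2 q.2 U = occ q.1.1.2 q.2 U' := by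
        unfold occ
        congr 1
        apply filter_congr
        intro z hz
        rw [h z hz]
      rw [this])
    (fun q => Real.exp (-((q.1.1.2.card : ℝ) / (8 * m))))
    (fun q => (Real.exp_pos _).le)
    (by
      intro q
      obtain ⟨h1, h2⟩ := hF1 q.1.1 q.1.2
      have h3 := (hi0 _ h1).2
      rw [div_le_iff₀ hρ] at h3
      have h4 : (1 : ℝ) ≤ (q.1.1.2.card : ℝ) / (8 * m) := by
        rw [le_div_iff₀ (by positivity)]
        linarith
      have h5 : Real.exp (-1) ≤ 1 / 2 := by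
        rw [Real.exp_neg, one_div]
        apply inv_anti₀ (by norm_num)
        have := Real.exp_one_gt_d9
        linarith
      exact (Real.exp_le_exp.2 (by linarith)).trans h5)
    (1 / (16 * m))
    (by
      intro z
      rw [sum_filter]
      have h1 : ∑ q : {p // p ∈ F} × Fin m, (if z ∈ q.1.1.2 then
          Real.exp (-((q.1.1.2.card : ℝ) / (8 * m))) else 0) =
          m * ∑ p ∈ F.filter (fun p => z ∈ p.2), Real.exp (-((p.2.card : ℝ) / (8 * m))) := by
        rw [Fintype.sum_prod_type, sum_filter, ← Finset.sum_coe_sort F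
          (fun p => if z ∈ p.2 then Real.exp (-((p.2.card : ℝ) / (8 * m))) else 0), mul_sum]
        apply sum_congr rfl
        intro p _
        show (∑ _y : Fin m, (if z ∈ p.1.2 then
          Real.exp (-((p.1.2.card : ℝ) / (8 * m))) else 0)) = _
        rw [sum_const, card_univ, Fintype.card_fin, nsmul_eq_mul]
      rw [h1]
      set T := F.filter (fun p => z ∈ p.2) with hT
      have h2 : ∑ p ∈ T, Real.exp (-((p.2.card : ℝ) / (8 * m))) ≤
          ∑ p ∈ T, Real.exp (-(ρ / (8 * m) * nn p.1)) := by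
        apply sum_le_sum
        intro p hp
        have h3 := (hF1 p (mem_filter.1 hp).1).2
        apply Real.exp_le_exp.2
        rw [neg_le_neg_iff, div_mul_eq_mul_div]
        exact div_le_div_of_nonneg_right h3 (by positivity)
      have h3 : ∑ p ∈ T, Real.exp (-(ρ / (8 * m) * nn p.1)) =
          ∑ j ∈ T.image Prod.fst, (T.filter (fun p => p.1 = j)).card •
            Real.exp (-(ρ / (8 * m) * nn j)) :=
        Finset.sum_comp (fun j => Real.exp (-(ρ / (8 * m) * nn j))) Prod.fst
      have h4 : ∑ j ∈ T.image Prod.fst, (T.filter (fun p => p.1 = j)).card •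
            Real.exp (-(ρ / (8 * m) * nn j)) ≤
          ∑ j ∈ T.image Prod.fst, 1 / (16 * (m : ℝ) ^ 2) * (1 / 2) ^ (j + 1) := by
        apply sum_le_sum
        intro j hj
        obtain ⟨p, hp, rfl⟩ := mem_image.1 hj
        have h5 := (hi0 _ (hF1 p (mem_filter.1 hp).1).1).1
        refine le_trans ?_ h5
        rw [nsmul_eq_mul]
        apply mul_le_mul_of_nonneg_right _ (Real.exp_pos _).le
        have h6 : (T.filter (fun q => q.1 = p.1)).card ≤ nn p.1 ^ K := by
          refine le_trans (card_le_card ?_) (hF2 z p.1)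
          intro q hq
          obtain ⟨hq1, hq2⟩ := mem_filter.1 hq
          obtain ⟨hq3, hq4⟩ := mem_filter.1 hq1
          exact mem_filter.2 ⟨hq3, hq2, hq4⟩
        exact_mod_cast h6
      have h5 : ∑ j ∈ T.image Prod.fst, 1 / (16 * (m : ℝ) ^ 2) * (1 / 2) ^ (j + 1) ≤
          1 / (16 * (m : ℝ) ^ 2) := by
        rw [← mul_sum]
        have := geo_sum (T.image Prod.fst)
        calc 1 / (16 * (m : ℝ) ^ 2) * ∑ j ∈ T.image Prod.fst, (1 / 2 : ℝ) ^ (j + 1)
            ≤ 1 / (16 * (m : ℝ) ^ 2) * 1 := mul_le_mul_of_nonneg_left this (by positivity)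
          _ = _ := mul_one _
      calc (m : ℝ) * ∑ p ∈ T, Real.exp (-((p.2.card : ℝ) / (8 * m)))
          ≤ m * (1 / (16 * (m : ℝ) ^ 2)) := by
            apply mul_le_mul_of_nonneg_left _ hm0.le
            linarith
        _ = 1 / (16 * m) := by
            field_simp)
    (by
      intro q
      have h1 := poor_card hm q.1.1.2 q.2
      have h2 : Real.exp (-((q.1.1.2.card : ℝ) / (8 * m))) *
          Real.exp (-(2 * ((q.1.1.2.card : ℝ) * (1 / (16 * m))))) =
          Real.exp (-((q.1.1.2.card : ℝ) / (4 * m))) := by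
        rw [← Real.exp_add]
        congr 1
        field_simp
        ring
      rw [h2, Fintype.card_fun, Fintype.card_fin]
      push_cast
      exact h1)
  refine ⟨U, ?_⟩
  intro p hp c
  have := hU (⟨p, hp⟩, c)
  simp only [mem_filter, mem_univ, true_and, not_le] at this
  exact this

end Pool.Agent.R34.DS
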