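import Mathlib
import Pool.Agent.R34.DS.Count
import Pool.Agent.R34.DS.Poor

/-!
The deterministic part: if every colour occurs often on the sets of the family, then the rule gives
a colouring in which every neighbourhood sees every colour.
-/

set_option autoImplicit false
set_option linter.unusedSectionVars false

namespace Pool.Agent.R34.DS

open Finset Classical

variable {V : Type} [Fintype V] {G : SimpleGraph V} {k m i0 : ℕ}

/-- a set of the family has more than `k` vertices of each colour -/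
lemma occ_gt (hk : 1 ≤ k) (hm : 1 ≤ m) (hcls : ∀ v : V, i0 ≤ cls G v)
    (hnn : ∀ a, i0 ≤ a → 4096 * m ^ 3 * k ≤ nn a) {p : ℕ × Finset V} (hp : p ∈ Fam G k m)
    {U : V → Fin m} {c : Fin m} (hU : p.2.card < 4 * m * occ p.2 c U) : k < occ p.2 c U := by
  obtain ⟨h1, h2⟩ := Fam_big hk hm hcls hnn hp
  have h3 := hnn _ h1
  have hm2 : 0 < m ^ 2 := by positivity
  have h4 : 1024 * m ^ 2 * p.2.card < 1024 * m ^ 2 * (4 * m * occ p.2 c U) :=
    Nat.mul_lt_mul_of_pos_left hU (by positivity)
  have h5 : 1024 * m ^ 2 * (4 * m * occ p.2 c U) = 4096 * m ^ 3 * occ p.2 c U := by ring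
  have h6 : 4096 * m ^ 3 * k < 4096 * m ^ 3 * occ p.2 c U := by omega
  exact Nat.lt_of_mul_lt_mul_left h6

/-- a vertex that sees almost all of a set sees the colour -/
lemma sees_of {S : Finset V} {x v : V} {U : V → Fin m} {c : Fin m}
    (h1 : k < occ S c U) (h2 : ((S.erase x).filter (fun y => ¬ G.Adj v y)).card < k) :
    ∃ y ∈ S, G.Adj v y ∧ U y = c := by
  by_contra hcon
  push Not at hcon
  have h3 : (S.filter (fun z => U z = c)).erase x ⊆ (S.erase x).filter (fun y => ¬ G.Adj v y) := by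
    intro y hy
    obtain ⟨e1, e2⟩ := mem_erase.1 hy
    obtain ⟨e3, e4⟩ := mem_filter.1 e2
    exact mem_filter.2 ⟨mem_erase.2 ⟨e1, e3⟩, fun e5 => hcon y e3 e5 e4⟩
  have h4 := card_le_card h3
  have h5 := pred_card_le_card_erase (s := S.filter (fun z => U z = c)) (a := x)
  unfold occ at h1
  omega

theorem sees (hk : 1 ≤ k) (hm : 1 ≤ m) (h : DSF G k) (hP : Par k m i0)
    (hcls : ∀ v : V, i0 ≤ cls G v) (hnn : ∀ a, i0 ≤ a → 4096 * m ^ 3 * k ≤ nn a)
    {U col : V → Fin m} (hU : ∀ p ∈ Fam G k m, ∀ c, p.2.card < 4 * m * occ p.2 c U)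
    (hR : Rule G k (Act G k m) U col) (v : V) (γ : Fin m) : ∃ x, G.Adj v x ∧ col x = γ := by
  by_contra hmiss
  push Not at hmiss
  set i := cls G v with hi
  have hi0 : i0 ≤ i := hcls v
  have hm2 : m ≤ m ^ 2 := by nlinarith
  have hm3 : m ^ 2 ≤ m ^ 3 := Nat.pow_le_pow_right hm (by norm_num)
  have h512 : 512 * m ^ 2 ≤ nn i := by
    refine le_trans ?_ (hnn i hi0)
    calc 512 * m ^ 2 ≤ 4096 * m ^ 3 := by omega
      _ ≤ 4096 * m ^ 3 * k := Nat.le_mul_of_pos_right _ hk
  have hnpos := nn_pos i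
  -- excused vertices
  have hexc : ∀ x, G.Adj v x → Exc G k m x → U x ≠ γ := by
    intro x hx he hUx
    have h1 := hR.h1 x (fun ha => ha.2 he)
    exact hmiss x hx (h1.trans hUx)
  -- typical hubs
  have hTmiss : ∀ x ∈ T G k v, γ ∈ Miss G k col x := by
    intro x hx
    obtain ⟨h1, h2, h3⟩ := mem_T.1 hx
    rw [mem_Miss]
    intro y hy _
    exact hmiss y (h3 y hy)
  have hTU : ∀ x ∈ T G k v, U x ≠ γ := by
    intro x hx hUx
    obtain ⟨h1, h2, h3⟩ := mem_T.1 hx
    have h4 := hTmiss x hx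
    rw [← hUx] at h4
    exact hmiss x h1 ((hR.h2 x h4).trans hUx)
  have hTAct : ∀ x ∈ (T G k v).filter (fun x => ¬ Exc G k m x),
      Act G k m x ∧ (Miss G k col x).Nonempty := by
    intro x hx
    obtain ⟨h1, h2⟩ := mem_filter.1 hx
    exact ⟨⟨⟨_, (mem_T.1 h1).2.1⟩, h2⟩, ⟨γ, hTmiss x h1⟩⟩
  -- (a) the set `E v` is small
  have hE : 6 * (E G k v).card < nn i := by
    by_contra hcon
    push Not at hcon
    have hp : (cls G v, E G k v) ∈ Fam G k m :=
      mem_Fam.2 (Or.inl (Or.inl (Or.inl (Or.inl ⟨v, hcon, rfl⟩))))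
    have h1 := hU _ hp γ
    simp only at h1
    set C := (E G k v).filter (fun x => U x = γ) with hC
    have hocc : occ (E G k v) γ U = C.card := rfl
    rw [hocc] at h1
    have hCAct : ∀ x ∈ C, Act G k m x ∧ (Miss G k col x).Nonempty := by
      intro x hx
      obtain ⟨h2, h3⟩ := mem_filter.1 hx
      have h4 := (mem_E.1 h2).1
      constructor
      · by_contra h5
        exact hmiss x h4 ((hR.h1 x h5).trans h3)
      · by_contra h5
        rw [not_nonempty_iff_eq_empty] at h5
        exact hmiss x h4 ((hR.h3 x h5).trans h3)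
    have hCnb : C ⊆ nb G v := by
      intro x hx
      exact mem_nb.2 (mem_E.1 (mem_filter.1 hx).1).1
    set C1 := C.filter (fun x => Low G k m v x) with hC1
    set C2 := C.filter (fun x => ¬ Low G k m v x) with hC2
    have h2 : C1.card + C2.card = C.card := card_filter_add_card_filter_not _
    have h3 : 512 * m * C1.card ≤ 2 * nn i := by
      apply low_bound hk hm h hP hcls ((filter_subset _ _).trans hCnb)
      · intro x hx
        exact (mem_filter.1 hx).2
      · intro C' hC'
        exact exists_ind_of_rule h hR (fun x hx => hCAct x (mem_filter.1 (hC' hx)).1)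
    obtain ⟨I, hI, hIi, hIc⟩ := exists_ind_of_rule h hR (S := C2)
      (fun x hx => hCAct x (mem_filter.1 hx).1)
    have h4 : I.card < qq m i := by
      by_contra h5
      push Not at h5
      obtain ⟨I', hI', hI'c⟩ := exists_subset_card_eq h5
      have hq : 1 ≤ qq m i := by
        unfold qq
        exact (Nat.one_le_div_iff (by positivity)).2 h512
      have h6 : I'.Nonempty := by
        rw [← card_pos]
        omega
      obtain ⟨x, hx⟩ := h6
      have h7 : Exc G k m x := by
        refine ⟨v, I', ?_, hIi.mono hI', hI'c, hx⟩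
        intro y hy
        obtain ⟨e1, e2⟩ := mem_filter.1 (hI (hI' hy))
        exact mem_filter.2 ⟨(mem_filter.1 e1).1, e2⟩
      exact (hCAct x (mem_filter.1 (hI (hI' hx))).1).1.2 h7
    have h5 : 512 * m * C2.card ≤ nn i := by
      calc 512 * m * C2.card ≤ 512 * m * (m * I.card) := Nat.mul_le_mul_left _ hIc
        _ = 512 * m ^ 2 * I.card := by ring
        _ ≤ 512 * m ^ 2 * qq m i := Nat.mul_le_mul_left _ h4.le
        _ ≤ nn i := by
            unfold qq
            exact Nat.mul_div_le _ _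
    have h6 : 512 * m * C.card = 512 * m * C1.card + 512 * m * C2.card := by
      rw [← h2]
      ring
    have h7 : 512 * m * C.card = 128 * (4 * m * C.card) := by ring
    omega
  -- (b) few excused typical hubs
  have hX1 : 6 * (X1 G k m v).card < nn i := by
    by_contra hcon
    push Not at hcon
    have hp : (cls G v, X1 G k m v) ∈ Fam G k m :=
      mem_Fam.2 (Or.inl (Or.inl (Or.inr ⟨v, hcon, rfl⟩)))
    have h1 := occ_gt hk hm hcls hnn hp (hU _ hp γ)
    have h2 : 0 < occ (X1 G k m v) γ U := lt_of_le_of_lt (Nat.zero_le _) h1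
    obtain ⟨x, hx⟩ := card_pos.1 h2
    obtain ⟨h3, h4⟩ := mem_filter.1 hx
    exact hTU x (mem_filter.1 h3).1 h4
  have hB : 6 * ((T G k v).filter (fun x => Exc G k m x)).card < nn i := by
    by_contra hcon
    push Not at hcon
    have h1 : ∃ x ∈ (T G k v).filter (fun x => Exc G k m x), x ∉ X1 G k m v := by
      by_contra h2
      push Not at h2
      have := card_le_card (show (T G k v).filter (fun x => Exc G k m x) ⊆ X1 G k m v from h2)
      omega
    obtain ⟨x, hx, hxX⟩ := h1
    obtain ⟨h2, h3⟩ := mem_filter.1 hx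
    have h4 : v ∉ B1 G k m x i := fun h5 => hxX (mem_filter.2 ⟨h2, h3, h5⟩)
    have h6 : (((gI G k m x).erase x).filter (fun y => ¬ G.Adj v y)).card < k := by
      by_contra h7
      push Not at h7
      exact h4 (mem_filter.2 ⟨mem_W.2 ⟨(mem_T.1 h2).1.symm, rfl⟩, Or.inr h7⟩)
    have hp : (cls G (gv G k m x), gI G k m x) ∈ Fam G k m :=
      mem_Fam.2 (Or.inl (Or.inl (Or.inl (Or.inr ⟨x, h3, rfl⟩))))
    obtain ⟨y, hy, hvy, hUy⟩ := sees_of (occ_gt hk hm hcls hnn hp (hU _ hp γ)) h6
    exact hexc y hvy (exc_of_mem_gI h3 hy) hUy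
  -- (c) the other typical hubs
  have hA : nn i ≤ 6 * ((T G k v).filter (fun x => ¬ Exc G k m x)).card := by
    have h1 := card_T_add_E (G := G) (k := k) v
    have h2 : ((T G k v).filter (fun x => Exc G k m x)).card +
        ((T G k v).filter (fun x => ¬ Exc G k m x)).card = (T G k v).card :=
      card_filter_add_card_filter_not _
    have h3 : nn i ≤ 2 * dg G v := by
      have hne : dg G v ≠ 0 := by
        intro h0
        have h4 : cls G v = 0 := by
          unfold cls
          rw [h0]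
          simp
        rw [← hi] at h4
        rw [h4] at h512
        have h5 : nn 0 = 2 := by
          unfold nn
          norm_num
        rw [h5] at h512
        omega
      have h4 : 2 ^ Nat.log 2 (dg G v) ≤ dg G v := Nat.pow_log_le_self 2 hne
      have h5 : nn i = 2 * 2 ^ Nat.log 2 (dg G v) := by
        rw [hi]
        unfold nn cls
        rw [pow_succ]
        ring
      omega
    omega
  have hIv := Iv_card (exists_ind_of_rule h hR hTAct)
  have hIv6 : nn i ≤ 6 * m * (Iv G k m v).card := by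
    calc nn i ≤ 6 * ((T G k v).filter (fun x => ¬ Exc G k m x)).card := hA
      _ ≤ 6 * (m * (Iv G k m v).card) := Nat.mul_le_mul_left _ hIv
      _ = 6 * m * (Iv G k m v).card := by ring
  have hIvT : ∀ x ∈ Iv G k m v, x ∈ T G k v := fun x hx => (mem_filter.1 (Iv_sub v hx)).1
  have hgood : (Iv G k m v).card ≤ 2 * ((Iv G k m v).filter (fun x =>
      ((Iv G k m v).filter (fun z => ¬ Do G i z x)).card ≤ 4 * k)).card := by
    apply half_good
    intro z hz
    exact card_not_Do hk h hP hi0 (Iv_sub_nb v) (Iv_ind v) hz (mem_T.1 (hIvT z hz)).2.1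
  set Gd := (Iv G k m v).filter (fun x =>
      ((Iv G k m v).filter (fun z => ¬ Do G i z x)).card ≤ 4 * k) with hGd
  have hcand : ∀ x ∈ Gd, Cand G k m x i v := by
    intro x hx
    obtain ⟨h1, h2⟩ := mem_filter.1 hx
    exact ⟨rfl, hIv6, h1, h2⟩
  by_cases hall : ∀ x ∈ Gd, v ∈ B2 G k m x i
  · have h1 : Gd ⊆ X2 G k m v := by
      intro x hx
      exact mem_filter.2 ⟨(mem_filter.1 hx).1, hcand x hx, hall x hx⟩
    have h2 := card_le_card h1
    have h3 : nn i ≤ 12 * m * (X2 G k m v).card := by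
      calc nn i ≤ 6 * m * (Iv G k m v).card := hIv6
        _ ≤ 6 * m * (2 * (X2 G k m v).card) := Nat.mul_le_mul_left _ (by omega)
        _ = 12 * m * (X2 G k m v).card := by ring
    have hp : (cls G v, X2 G k m v) ∈ Fam G k m := mem_Fam.2 (Or.inr ⟨v, h3, rfl⟩)
    have h4 := occ_gt hk hm hcls hnn hp (hU _ hp γ)
    have h5 : 0 < occ (X2 G k m v) γ U := lt_of_le_of_lt (Nat.zero_le _) h4
    obtain ⟨x, hx⟩ := card_pos.1 h5
    obtain ⟨h6, h7⟩ := mem_filter.1 hx
    exact hTU x (hIvT x (mem_filter.1 h6).1) h7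
  · push Not at hall
    obtain ⟨x, hx, hxB⟩ := hall
    have hc := hcand x hx
    have hex : ∃ w, Cand G k m x i w := ⟨v, hc⟩
    have hxT := hIvT x (mem_filter.1 hx).1
    have hvW : v ∈ W G i x := mem_W.2 ⟨(mem_T.1 hxT).1.symm, rfl⟩
    have h1 : ¬ (G.Adj v (wh G k m x i) ∨
        k ≤ (((JJ G k m x i).erase x).filter (fun y => ¬ G.Adj v y)).card ∨
        ∃ z ∈ JJ G k m x i, G.Adj v z ∧ ¬ Typ G k v z) :=
      fun h2 => hxB (mem_filter.2 ⟨hvW, h2⟩)
    rw [not_or, not_or, not_le] at h1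
    obtain ⟨h2, h3, h4⟩ := h1
    have hp : (cls G v, JJ G k m x (cls G v)) ∈ Fam G k m :=
      mem_Fam.2 (Or.inl (Or.inr ⟨x, v, hc, rfl⟩))
    obtain ⟨z, hz, hvz, hUz⟩ := sees_of (occ_gt hk hm hcls hnn hp (hU _ hp γ)) h3
    refine hTU z (mem_T.2 ⟨hvz, hub_of_mem_JJ hex hz, ?_⟩) hUz
    by_contra h5
    exact h4 ⟨z, hz, hvz, h5⟩

end Pool.Agent.R34.DS
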