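import Mathlib
import Pool.Agent.R34.DS.Det

/-!
Every graph without an induced double star and of large minimum degree has a colouring with `m`
colours in which every neighbourhood sees every colour.
-/

set_option autoImplicit false
set_option linter.unusedSectionVars false

namespace Pool.Agent.R34.DS

open Finset Classical

lemma par_of {k m i0 : ℕ} (hk : 1 ≤ k) (hm : 1 ≤ m)
    (hN : ∀ a, i0 ≤ a → 4096 * m ^ 3 * k + 2 ^ (cc m) + 8 ≤ nn a) : Par k m i0 := by
  have hm2 : m ≤ m ^ 2 := by nlinarith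
  have hm3 : m ^ 2 ≤ m ^ 3 := Nat.pow_le_pow_right hm (by norm_num)
  have hkk : ∀ c : ℕ, c ≤ c * k := fun c => Nat.le_mul_of_pos_right _ hk
  have hm3' : 1 ≤ m ^ 3 := Nat.one_le_pow _ _ hm
  have key : ∀ a, i0 ≤ a → 8 ≤ nn a ∧ 2 * k ≤ nn a ∧ 512 * m ≤ nn a ∧ 1024 * m ^ 2 * k ≤ nn a := by
    intro a ha
    have h1 := hN a ha
    have hpos : 0 < 2 ^ (cc m) := by positivity
    refine ⟨by omega, ?_, ?_, ?_⟩
    · have : 2 * k ≤ 4096 * m ^ 3 * k := Nat.mul_le_mul_right _ (by omega)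
      omega
    · have := hkk (4096 * m ^ 3)
      omega
    · have : 1024 * m ^ 2 * k ≤ 4096 * m ^ 3 * k := Nat.mul_le_mul_right _ (by omega)
      omega
  refine ⟨?_, ?_, ?_, ?_, ?_⟩
  · intro a ha
    obtain ⟨h8, h2k, -, -⟩ := key a ha
    unfold hb
    set N := nn a with hNd
    calc N * (N * (2 * k * N)) ≤ N * (N * (N * N)) := by gcongr
      _ = N ^ 4 := by ring
      _ ≤ N ^ (3 * k + 10) := Nat.pow_le_pow_right (by omega) (by omega)
  · intro a ha
    obtain ⟨h8, h2k, -, -⟩ := key a ha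
    unfold hb
    set N := nn a with hNd
    have h1 : (N + k) ^ k ≤ (N * N) ^ k := by
      apply Nat.pow_le_pow_left
      nlinarith
    calc 2 * ((N + k) ^ k * (k * N)) ≤ 2 * ((N * N) ^ k * (k * N)) := by gcongr
      _ = (2 * k) * N * (N * N) ^ k := by ring
      _ ≤ N * N * (N * N) ^ k := by gcongr
      _ = N ^ (2 * k + 2) := by
          rw [← pow_two, ← pow_mul, ← pow_add]
          congr 1
          omega
      _ ≤ N ^ (3 * k + 10) := Nat.pow_le_pow_right (by omega) (by omega)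
  · intro a ha
    obtain ⟨h8, -, h512, -⟩ := key a ha
    unfold hb
    set N := nn a with hNd
    calc 2 * (N * (512 * m)) ≤ N * (N * N) := by
          have : 2 ≤ N := by omega
          gcongr
      _ = N ^ 3 := by ring
      _ ≤ N ^ (3 * k + 10) := Nat.pow_le_pow_right (by omega) (by omega)
  · intro a ha
    obtain ⟨h8, h2k, -, -⟩ := key a ha
    unfold hb
    set N := nn a with hNd
    have h1 : N ≤ N ^ k * (k * N) := by
      have e1 : 1 ≤ N ^ k := Nat.one_le_pow _ _ (by omega)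
      calc N = 1 * (1 * N) := by ring
        _ ≤ N ^ k * (k * N) := by gcongr
    calc N * (N + N ^ k * (k * N)) ≤ N * (N ^ k * (k * N) + N ^ k * (k * N)) := by gcongr
      _ = N * (N ^ k * ((2 * k) * N)) := by ring
      _ ≤ N * (N ^ k * (N * N)) := by gcongr
      _ = N ^ (k + 3) := by
          rw [pow_add]
          ring
      _ ≤ N ^ (3 * k + 10) := Nat.pow_le_pow_right (by omega) (by omega)
  · intro a ha
    exact (key a ha).2.2.2

lemma count_of {k m N : ℕ} (h8 : 8 ≤ N) (hkN : k ≤ N) (hcN : 2 ^ (cc m) ≤ N) :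
    N ^ (3 * k + 10) + N ^ (3 * k + 10) * N + (N * 2 ^ (cc m) + (N * 2 ^ (cc m)) ^ k * (k * N)) +
      2 * N + (N + N ^ k * (k * N) + N * N ^ (3 * k + 10)) ≤ N ^ (3 * k + 12) := by
  have hN : 0 < N := by omega
  have a1 : N ^ (3 * k + 10) ≤ N ^ (3 * k + 11) := Nat.pow_le_pow_right hN (by omega)
  have a2 : N ^ (3 * k + 10) * N = N ^ (3 * k + 11) := by rw [← pow_succ]
  have a3 : N * 2 ^ (cc m) ≤ N ^ (3 * k + 11) := by
    calc N * 2 ^ (cc m) ≤ N * N := Nat.mul_le_mul_left _ hcN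
      _ = N ^ 2 := by ring
      _ ≤ N ^ (3 * k + 11) := Nat.pow_le_pow_right hN (by omega)
  have a4 : (N * 2 ^ (cc m)) ^ k * (k * N) ≤ N ^ (3 * k + 11) := by
    calc (N * 2 ^ (cc m)) ^ k * (k * N) ≤ (N * N) ^ k * (N * N) := by gcongr
      _ = N ^ (2 * k + 2) := by
          rw [← pow_two, ← pow_mul, ← pow_add]
      _ ≤ N ^ (3 * k + 11) := Nat.pow_le_pow_right hN (by omega)
  have a5 : 2 * N ≤ N ^ (3 * k + 11) := by
    calc 2 * N ≤ N * N := Nat.mul_le_mul_right _ (by omega)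
      _ = N ^ 2 := by ring
      _ ≤ N ^ (3 * k + 11) := Nat.pow_le_pow_right hN (by omega)
  have a6 : N ≤ N ^ (3 * k + 11) := by omega
  have a7 : N ^ k * (k * N) ≤ N ^ (3 * k + 11) := by
    calc N ^ k * (k * N) ≤ N ^ k * (N * N) := by gcongr
      _ = N ^ (k + 2) := by
          rw [pow_add]
          ring
      _ ≤ N ^ (3 * k + 11) := Nat.pow_le_pow_right hN (by omega)
  have a8 : N * N ^ (3 * k + 10) = N ^ (3 * k + 11) := by
    rw [← pow_succ']
  have a9 : N ^ (3 * k + 12) = N * N ^ (3 * k + 11) := by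
    rw [← pow_succ']
  have a10 : 8 * N ^ (3 * k + 11) ≤ N * N ^ (3 * k + 11) := Nat.mul_le_mul_right _ h8
  omega

/-- the colouring theorem -/
theorem colouring (k m : ℕ) (hk : 1 ≤ k) (hm : 1 ≤ m) : ∃ D : ℕ, ∀ (V : Type) [Fintype V]
    (G : SimpleGraph V), DSF G k → (∀ v, D ≤ dg G v) →
      ∃ col : V → Fin m, ∀ v γ, ∃ x, G.Adj v x ∧ col x = γ := by
  have hm2 : 0 < m ^ 2 := by positivity
  obtain ⟨i1, hi1⟩ := poor_lll m hm (1 / (1024 * (m : ℝ) ^ 2)) (by positivity) (3 * k + 12)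
  set i0 := max i1 (4096 * m ^ 3 * k + 2 ^ (cc m) + 8) with hi0
  refine ⟨2 ^ i0, ?_⟩
  intro V _ G hG hD
  have hcls : ∀ v : V, i0 ≤ cls G v := by
    intro v
    unfold cls
    exact Nat.le_log_of_pow_le (by norm_num) (hD v)
  have hN : ∀ a, i0 ≤ a → 4096 * m ^ 3 * k + 2 ^ (cc m) + 8 ≤ nn a := by
    intro a ha
    have h1 : a < nn a := by
      unfold nn
      exact lt_trans (Nat.lt_succ_self a) Nat.lt_two_pow_self
    have h2 : 4096 * m ^ 3 * k + 2 ^ (cc m) + 8 ≤ i0 := le_max_right _ _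
    omega
  have hP : Par k m i0 := par_of hk hm hN
  have hpos : 0 < 2 ^ (cc m) := by positivity
  have hnn : ∀ a, i0 ≤ a → 4096 * m ^ 3 * k ≤ nn a := by
    intro a ha
    have := hN a ha
    omega
  obtain ⟨U, hU⟩ := hi1 V (Fam G k m) (by
    intro p hp
    obtain ⟨h1, h2⟩ := Fam_big hk hm hcls hnn hp
    refine ⟨le_trans (le_max_left _ _) h1, ?_⟩
    have h3 : (nn p.1 : ℝ) ≤ 1024 * (m : ℝ) ^ 2 * p.2.card := by exact_mod_cast h2
    have h4 : (0 : ℝ) < 1024 * (m : ℝ) ^ 2 := by positivity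
    rw [div_mul_eq_mul_div, one_mul, div_le_iff₀ h4]
    linarith) (by
    intro z j
    by_cases hj : i0 ≤ j
    · refine (Fam_few hk hG hP hcls z j).trans ?_
      have h1 := hN j hj
      have h2 : k ≤ 4096 * m ^ 3 * k := by
        have : 1 ≤ 4096 * m ^ 3 := by
          have := Nat.one_le_pow 3 m hm
          omega
        exact Nat.le_mul_of_pos_left _ this
      exact count_of (by omega) (by omega) (by omega)
    · have h1 : (Fam G k m).filter (fun p => p.1 = j ∧ z ∈ p.2) = ∅ := by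
        apply eq_empty_of_forall_notMem
        intro p hp
        obtain ⟨h1, h2, _⟩ := mem_filter.1 hp
        have h3 := (Fam_big hk hm hcls hnn h1).1
        omega
      rw [h1, card_empty]
      exact Nat.zero_le _)
  obtain ⟨col, hcol⟩ := exists_col G k (Act G k m) U
  exact ⟨col, fun v γ => sees hk hm hG hP hcls hnn hU hcol v γ⟩

end Pool.Agent.R34.DS
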